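import Pool.Agent.Q161.SX.Stm

/-! # Project SX: embeddings of `L` -/

set_option autoImplicit false

namespace Pool.Agent.Q161.SX

open Polynomial NumberField IsDedekindDomain
open Pool.Agent.Q51.EL

universe u v w

section

variable {f : ℤ[X]} {L : Type} [Field L] [NumberField L] {θ : L}

theorem aeval_map_int {R : Type u} [CommRing R] [Algebra ℚ R] (z : R) (f : ℤ[X]) :
    aeval z (f.map (Int.castRingHom ℚ)) = aeval z f := by
  rw [aeval_def, aeval_def, eval₂_map]
  congr 1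
  exact RingHom.ext_int _ _

theorem Setup.f0 (hs : Setup f L θ) : f ≠ 0 := by
  rintro rfl
  have h := hs.irr.ne_zero
  exact h (by simp)

theorem Setup.deg_pos (hs : Setup f L θ) : 0 < f.natDegree := by
  rw [← hs.deg]
  exact Module.finrank_pos

theorem Setup.minpoly_deg (hs : Setup f L θ) : (minpoly ℚ θ).natDegree = Module.finrank ℚ L := by
  have h0 : aeval θ (f.map (Int.castRingHom ℚ)) = 0 := by
    rw [aeval_map_int]
    exact hs.root
  have h1 := minpoly.eq_of_irreducible hs.irr h0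
  rw [← h1, natDegree_mul_C (inv_ne_zero (leadingCoeff_ne_zero.2 hs.irr.ne_zero)), hs.deg,
    natDegree_map_eq_of_injective (Int.castRingHom ℚ).injective_int]

theorem Setup.adj (hs : Setup f L θ) : IntermediateField.adjoin ℚ {θ} = ⊤ :=
  (Field.primitive_element_iff_minpoly_natDegree_eq ℚ θ).2 (Setup.minpoly_deg hs)

/-- `θ` generates `L` -/
theorem Setup.gen (hs : Setup f L θ) : Algebra.adjoin ℚ {θ} = ⊤ := by
  have h1 := IntermediateField.adjoin_simple_toSubalgebra_of_isAlgebraic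
    (Algebra.IsAlgebraic.isAlgebraic (R := ℚ) θ)
  rw [← h1, Setup.adj hs]
  rfl

theorem Setup.hom_ext (hs : Setup f L θ) {A : Type u} [Field A] [Algebra ℚ A] {j j' : L →ₐ[ℚ] A}
    (h : j θ = j' θ) : j = j' := by
  refine AlgHom.ext_of_adjoin_eq_top (Setup.gen hs) ?_
  intro y hy
  rw [Set.mem_singleton_iff] at hy
  subst hy
  exact h

theorem Setup.root_hom (hs : Setup f L θ) {A : Type u} [Field A] [Algebra ℚ A] (j : L →ₐ[ℚ] A) :
    aeval (j θ) f = 0 := by
  have h1 := congrArg j hs.root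
  rw [map_zero] at h1
  rw [← h1, aeval_def, aeval_def]
  change _ = (j : L →+* A) _
  rw [hom_eval₂]
  congr 1
  exact RingHom.ext_int _ _

/-- the embedding with `θ ↦ i` -/
theorem Setup.exists_emb (hs : Setup f L θ) {A : Type u} [Field A] [Algebra ℚ A] (i : Rt f A) :
    ∃ j : L →ₐ[ℚ] A, j θ = i.1 := by
  have hirr := hs.irr
  have h0 : aeval θ (f.map (Int.castRingHom ℚ)) = 0 := by
    rw [aeval_map_int]
    exact hs.root
  have hint : IsIntegral ℚ θ := Algebra.IsIntegral.isIntegral θ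
  have h1 := minpoly.eq_of_irreducible hs.irr h0
  let pb : PowerBasis ℚ L := (Algebra.adjoin.powerBasis hint).map
    ((Subalgebra.equivOfEq _ _ (Setup.gen hs)).trans Subalgebra.topEquiv)
  have hgen : pb.gen = θ := by
    simp [pb]
  have hroot : aeval i.1 (minpoly ℚ pb.gen) = 0 := by
    rw [hgen, ← h1, map_mul]
    have h2 : aeval i.1 (f.map (Int.castRingHom ℚ)) = 0 := by
      rw [aeval_map_int]
      exact i.2
    rw [h2, zero_mul]
  refine ⟨pb.lift i.1 hroot, ?_⟩
  have h2 := pb.lift_gen i.1 hroot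
  rwa [hgen] at h2

theorem Setup.conj_emb (hs : Setup f L θ) {A : Type u} [Field A] [Algebra ℚ A]
    {J : Rt f A → (L →ₐ[ℚ] A)} (hJ : ∀ i, J i θ = i.1) (σ : A ≃ₐ[ℚ] A) (i : Rt f A) (z : L) :
    σ (J i z) = J (ra σ i) z := by
  have h1 : (σ : A →ₐ[ℚ] A).comp (J i) = J (ra σ i) := by
    refine Setup.hom_ext hs ?_
    rw [hJ]
    change σ (J i θ) = σ i.1
    rw [hJ]
  exact DFunLike.congr_fun h1 z

theorem Setup.eq_emb (hs : Setup f L θ) {A : Type u} [Field A] [Algebra ℚ A]
    {J : Rt f A → (L →ₐ[ℚ] A)} (hJ : ∀ i, J i θ = i.1) (j : L →ₐ[ℚ] A) : ∃ i, j = J i :=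
  ⟨⟨j θ, Setup.root_hom hs j⟩, Setup.hom_ext hs (hJ ⟨j θ, Setup.root_hom hs j⟩).symm⟩

theorem Setup.sep (hs : Setup f L θ) : (f.map (Int.castRingHom ℚ)).Separable := hs.irr.separable

end

end Pool.Agent.Q161.SX
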