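import Pool.Agent.Q161.SX.Ar1

/-! # Project SX: parities, and existence of the type -/

set_option autoImplicit false

namespace Pool.Agent.Q161.SX

open Polynomial NumberField IsDedekindDomain
open Pool.Agent.W623.SecC (IsU isU_one)
open Pool.Agent.Q51.EL
open Pool.Agent.W620.SC (root_mem)

universe u v w

section

variable {f : ℤ[X]} {A : Type} {M : Type v} [Field A] [Algebra ℚ A] [Field M]
  {L : Type} [Field L] [NumberField L]

/-- every prime contains a rational prime -/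
theorem exists_char {K : Type} [Field K] [NumberField K] (w : HeightOneSpectrum (𝓞 K)) :
    ∃ l : ℕ, l.Prime ∧ Abv w l := by
  have key : ∀ n : ℕ, n ≠ 0 → ((n : ℕ) : 𝓞 K) ∈ w.asIdeal → ∃ l : ℕ, l.Prime ∧ Abv w l := by
    intro n
    induction n using Nat.recOnMul with
    | zero => exact fun h => absurd rfl h
    | one =>
      intro _ h
      rw [Nat.cast_one] at h
      exact absurd ((Ideal.eq_top_iff_one _).2 h) w.isPrime.ne_top
    | prime p hp => exact fun _ h => ⟨p, hp, h⟩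
    | mul a b ha hb =>
      intro h0 h
      rw [Nat.cast_mul] at h
      rcases w.isPrime.mem_or_mem h with h1 | h1
      · exact ha (left_ne_zero_of_mul h0) h1
      · exact hb (right_ne_zero_of_mul h0) h1
  refine key (Ideal.absNorm w.asIdeal) ?_ (Ideal.absNorm_mem _)
  rw [Ne, Ideal.absNorm_eq_zero_iff]
  exact w.ne_bot

/-- `a θ` is integral -/
theorem exists_t {θ : L} (hs : Setup f L θ) : ∃ t : 𝓞 L, (t : L) = f.leadingCoeff * θ := by
  have h1 : IsIntegral ℤ (f.leadingCoeff • θ) := by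
    refine isIntegral_leadingCoeff_smul f θ ?_
    exact hs.root
  refine ⟨⟨f.leadingCoeff • θ, h1⟩, ?_⟩
  change f.leadingCoeff • θ = _
  rw [zsmul_eq_mul]

/-- the zero `r` is determined by the prime `v0` -/
theorem unq {θ : L} (hs : Setup f L θ) {V : ValuationSubring A}
    (hlc : IsU V (f.leadingCoeff : A)) (hd : ∀ i j : Rt f A, i ≠ j → IsU V (i.1 - j.1))
    {J : Rt f A → (L →ₐ[ℚ] A)} (hJ : ∀ i, J i θ = i.1) {v0 : HeightOneSpectrum (𝓞 L)}
    (hc : ∀ g : 𝓞 L, ∃ c : ℤ, g - (c : 𝓞 L) ∈ v0.asIdeal) {r k : Rt f A}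
    (hr : ∀ a : 𝓞 L, a ∈ v0.asIdeal ↔ J r (a : L) ∈ V.nonunits)
    (hk : ∀ a : 𝓞 L, a ∈ v0.asIdeal ↔ J k (a : L) ∈ V.nonunits) : k = r := by
  by_contra hkr
  obtain ⟨t, ht⟩ := exists_t hs
  obtain ⟨c, hc⟩ := hc t
  have h1 := (hr _).1 hc
  have h2 := (hk _).1 hc
  have e1 : ∀ i : Rt f A, J i (((t - (c : 𝓞 L) : 𝓞 L) : L)) = f.leadingCoeff * i.1 - c := by
    intro i
    have e2 : ((t - (c : 𝓞 L) : 𝓞 L) : L) = (t : L) - (c : L) := by
      push_cast
      rfl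
    rw [e2, ht, map_sub, map_mul, map_intCast, map_intCast, hJ]
  rw [e1] at h1 h2
  have h3 : (f.leadingCoeff : A) * (k.1 - r.1) ∈ V.nonunits := by
    have e3 : (f.leadingCoeff : A) * (k.1 - r.1) = (f.leadingCoeff * k.1 - c) +
        -(f.leadingCoeff * r.1 - c) := by ring
    rw [e3]
    exact nu_add h2 (nu_neg h1)
  exact (hlc.mul (hd k r hkr)).not_nonunit h3

/-- the data of the places -/
structure Env (f : ℤ[X]) (L : Type) [Field L] [NumberField L] (θ : L) (A : Type) [Field A]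
    [Algebra ℚ A] (P : ℕ → ValuationSubring A) (Φ : ℕ → (A ≃ₐ[ℚ] A))
    (J : Rt f A → (L →ₐ[ℚ] A)) (B : ℕ) : Prop where
  hs : Setup f L θ
  hP : ∀ l : ℕ, l.Prime → (l : A) ∈ (P l).nonunits ∧ Frb (P l) l (Φ l)
  hJ : ∀ i, J i θ = i.1
  dst : ∀ l : ℕ, l.Prime → ¬ l ∣ B → IsU (P l) (f.leadingCoeff : A) ∧
    ∀ i j : Rt f A, i ≠ j → IsU (P l) (i.1 - j.1)
  ram : ∀ l : ℕ, l.Prime → ¬ l ∣ B → ∀ v : HeightOneSpectrum (𝓞 L), Abv v l →
    v.valuation L (l : L) = WithZero.exp (-1 : ℤ)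

variable {θ : L} {P : ℕ → ValuationSubring A} {Φ : ℕ → (A ≃ₐ[ℚ] A)} {J : Rt f A → (L →ₐ[ℚ] A)}
  {B : ℕ} (E : Env f L θ A P Φ J B)

include E

theorem Env.int_class (hNRM : S_NRM) {S : Sec f A M} {l : ℕ} (hl : l.Prime) {r : Rt f A}
    {v0 : HeightOneSpectrum (𝓞 L)} (h : Dta S J (P l) (Φ l) l r v0) (g : 𝓞 L) :
    ∃ c : ℤ, g - (c : 𝓞 L) ∈ v0.asIdeal :=
  (hNRM f L θ E.hs A l hl (P l) (Φ l) (E.hP l hl).1 (E.hP l hl).2 (J r) (by
    rw [E.hJ]
    exact congrArg Subtype.val h.fix) v0 h.mem).2 g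

theorem Env.unq (hNRM : S_NRM) {S : Sec f A M} {l : ℕ} (hl : l.Prime) (hlB : ¬ l ∣ B) {r k : Rt f A}
    {v0 : HeightOneSpectrum (𝓞 L)} (h : Dta S J (P l) (Φ l) l r v0)
    (hk : ∀ a : 𝓞 L, a ∈ v0.asIdeal ↔ J k (a : L) ∈ (P l).nonunits) : k = r :=
  SX.unq E.hs (E.dst l hl hlB).1 (E.dst l hl hlB).2 E.hJ (E.int_class hNRM hl h) h.mem hk

/-- the values of the conjugates of `α` -/
theorem Env.val (hPRM : S_PRM) (hNRM : S_NRM) [IsAlgClosure ℚ A] {S : Sec f A M} {D : ℤ} {α : 𝓞 L}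
    (hα0 : α ≠ 0) (hα : Bel S J P Φ D B α) {l : ℕ} (hl : l.Prime) (hlB : ¬ l ∣ B)
    {r : Rt f A} {v0 : HeightOneSpectrum (𝓞 L)} (h : Dta S J (P l) (Φ l) l r v0)
    (h1 : v0.valuation L (α : L) = WithZero.exp (-1 : ℤ))
    (h2 : ∀ v : HeightOneSpectrum (𝓞 L), Abv v l → v ≠ v0 → v.valuation L (α : L) = 1) :
    (∀ k, k ≠ r → IsU (P l) (J k (α : L))) ∧ IsU (P l) (J r (α : L) / l) := by
  have hαL : (α : L) ≠ 0 := fun h => hα0 (RingOfIntegers.coe_eq_zero_iff.1 h)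
  have hlL : (l : L) ≠ 0 := Nat.cast_ne_zero.2 hl.ne_zero
  constructor
  · intro k hk
    obtain ⟨v, hv, hv1, hv2⟩ := (hPRM A L l hl (P l) (E.hP l hl).1).1 (J k)
    rw [hv2 _ hαL]
    refine h2 v hv ?_
    rintro rfl
    exact hk (E.unq hNRM hl hlB h hv1)
  · obtain ⟨v, hv, hv1, hv2⟩ := (hPRM A L l hl (P l) (E.hP l hl).1).1 (J r)
    have h3 : v = v0 := by
      ext a
      rw [hv1, h.mem]
    subst h3
    have h4 : J r (α : L) / l = J r ((α : L) / l) := by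
      rw [map_div₀, map_natCast]
    rw [h4, hv2 _ (div_ne_zero hαL hlL), map_div₀, h1, E.ram l hl hlB v hv]
    exact div_self (by simp)

theorem Env.even_val (hPRM : S_PRM) [IsAlgClosure ℚ A] {α : 𝓞 L}
    (hα0 : α ≠ 0) {l : ℕ} (hl : l.Prime)
    (h2 : ∀ v : HeightOneSpectrum (𝓞 L), Abv v l → v.valuation L (α : L) = 1) (k : Rt f A) :
    IsU (P l) (J k (α : L)) := by
  have hαL : (α : L) ≠ 0 := fun h => hα0 (RingOfIntegers.coe_eq_zero_iff.1 h)
  obtain ⟨v, hv, hv1, hv2⟩ := (hPRM A L l hl (P l) (E.hP l hl).1).1 (J k)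
  rw [hv2 _ hαL]
  exact h2 v hv

/-- parities of the elements `u` -/
theorem Env.par (hPRM : S_PRM) (hNRM : S_NRM) [IsAlgClosure ℚ A] {S : Sec f A M} {D : ℤ} {α : 𝓞 L}
    (hα0 : α ≠ 0) (hα : Bel S J P Φ D B α) {l : ℕ} (hl : l.Prime) (hlB : ¬ l ∣ B) {i i0 : Rt f A}
    (hi : i ≠ i0) {a : A} (ha : S.Kc i i0 a) (τ : A ≃ₐ[ℚ] A) :
    PV (P l) l (τ (a * (J i0 (α : L) / J i (α : L)))) 0 := by
  have hch : CharZero A := algebraRat.charZero A
  have hl0 := hl.ne_zero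
  have hσJ := Setup.conj_emb E.hs E.hJ
  have hk := S.kc_conj ha τ
  have hne : ra τ i ≠ ra τ i0 := fun h => hi ((ra τ).injective h)
  rw [map_mul, map_div₀, hσJ, hσJ]
  set i' := ra τ i with hi'
  set j' := ra τ i0 with hj'
  by_cases hlD : (l : ℤ) ∣ D
  · obtain ⟨r, v0, h, h1, h2⟩ := hα.odd l hl hlB hlD
    obtain ⟨h3, h4⟩ := E.val hPRM hNRM hα0 hα hl hlB h h1 h2
    by_cases hir : i' = r
    · have hjr : j' ≠ r := fun h5 => hne (hir.trans h5.symm)
      rw [hir] at hk ⊢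
      have h5 := h.od _ _ hjr (S.kc_inv hk)
      have h6 := PV.inv hl0 h5
      rw [inv_inv] at h6
      have h7 := PV.mul hl0 h6 (PV.div hl0 (PV.unit (l := l) (h3 j' hjr)) (PV.of_div h4))
      exact h7.congr ⟨-1, by ring⟩
    · by_cases hjr : j' = r
      · rw [hjr] at hk ⊢
        have h5 := h.od _ _ hir hk
        have h7 := PV.mul hl0 h5 (PV.div hl0 (PV.of_div h4) (PV.unit (l := l) (h3 i' hir)))
        exact h7.congr ⟨1, by ring⟩
      · have h5 := h.ev _ _ _ hir hjr hk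
        have h7 := PV.mul hl0 h5 (PV.div hl0 (PV.unit (l := l) (h3 j' hjr))
          (PV.unit (l := l) (h3 i' hir)))
        exact h7.congr ⟨0, by ring⟩
  · obtain ⟨h1, h2⟩ := hα.even l hl hlB hlD
    have h5 := h1 _ _ _ hk
    have h7 := PV.mul hl0 h5 (PV.div hl0 (PV.unit (l := l) (E.even_val hPRM hα0 hl h2 j'))
      (PV.unit (l := l) (E.even_val hPRM hα0 hl h2 i')))
    exact h7.congr ⟨0, by ring⟩

/-- existence of the type -/
theorem Env.att (hPRM : S_PRM) (hNRM : S_NRM) (hEVN : S_EVN) (hKUM : S_KUM.{v}) [IsAlgClosure ℚ A]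
    [NumberField (spl f A)] (T : Finset (spl f A)) (hT0 : (0 : spl f A) ∉ T)
    (hT : ∀ u : spl f A, u ≠ 0 →
      (∀ v : HeightOneSpectrum (𝓞 (spl f A)), (B : 𝓞 (spl f A)) ∉ v.asIdeal → Par v u 0) →
      ∃ t ∈ T, ∃ c : spl f A, c ≠ 0 ∧ u = t * c ^ 2)
    {S : Sec f A M} {D : ℤ} {α : 𝓞 L} (i0 : Rt f A)
    (hα0 : α ≠ 0) (hα : Bel S J P Φ D B α) :
    ∃ (t : Rt f A → A) (lam : (A ≃ₐ[ℚ] A) → Rt f A → A),
      (∀ i, t i ∈ insert (1 : A) ((fun z : spl f A => (z : A)) '' (T : Set (spl f A)))) ∧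
      Att S J i0 α t lam := by
  classical
  have hcl : IsAlgClosed A := IsAlgClosure.isAlgClosed ℚ
  have hσJ := Setup.conj_emb E.hs E.hJ
  have hαL : (α : L) ≠ 0 := fun h => hα0 (RingOfIntegers.coe_eq_zero_iff.1 h)
  have hJα : ∀ i, J i (α : L) ≠ 0 := fun i => (_root_.map_ne_zero (J i)).2 hαL
  have hx : ∀ a : A, S.x - S.ι a ≠ 0 := fun a h => S.htr a (sub_eq_zero.1 h).symm
  have hι : ∀ {a : A}, a ≠ 0 → S.ι a ≠ 0 := fun h => (_root_.map_ne_zero S.ι).2 h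
  have hex : ∀ i, ∃ (t : A) (β : M),
      t ∈ insert (1 : A) ((fun z : spl f A => (z : A)) '' (T : Set (spl f A))) ∧
      t ≠ 0 ∧ t ∈ spl f A ∧ β ≠ 0 ∧ S.Fix (spl f A) β ∧
      S.ι (t * (J i (α : L) / J i0 (α : L))) * β ^ 2 = (S.x - S.ι i.1) / (S.x - S.ι i0.1) := by
    intro i
    by_cases hi : i = i0
    · subst hi
      refine ⟨1, 1, Set.mem_insert _ _, one_ne_zero, one_mem _, one_ne_zero,
        fun σ _ => map_one _, ?_⟩
      rw [div_self (hJα i), div_self (hx i.1), one_mul, map_one, one_pow, one_mul]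
    · obtain ⟨a, ha⟩ := hKUM f A M S i i0
      obtain ⟨ha1, ha2, β, hβ0, hβF, hβ⟩ := ha
      have humem : a * (J i0 (α : L) / J i (α : L)) ∈ spl f A :=
        mul_mem ha1 (div_mem (emb_mem E.hs _ _) (emb_mem E.hs _ _))
      have hu0 : a * (J i0 (α : L) / J i (α : L)) ≠ 0 :=
        mul_ne_zero ha2 (div_ne_zero (hJα _) (hJα _))
      obtain ⟨t, ht, c, hc0, hu⟩ := hT ⟨_, humem⟩ (fun h => hu0 (congrArg Subtype.val h)) (by
        intro w hw
        -- the residue characteristic of `w`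
        have hlex : ∃ l : ℕ, l.Prime ∧ Abv w l := exists_char w
        obtain ⟨l, hl, hwl⟩ := hlex
        have hlB : ¬ l ∣ B := by
          rintro ⟨b, hb⟩
          apply hw
          rw [hb, Nat.cast_mul]
          exact Ideal.mul_mem_right _ _ hwl
        exact hEVN A (spl f A) l hl (P l) (E.hP l hl).1 _ (fun h => hu0 (congrArg Subtype.val h))
          (fun τ => E.par hPRM hNRM hα0 hα hl hlB hi ⟨ha1, ha2, β, hβ0, hβF, hβ⟩ τ) w hwl)
      have ht0 : (t : A) ≠ 0 := fun h => hT0 (by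
        have : t = 0 := Subtype.ext h
        rwa [this] at ht)
      have hc0' : (c : A) ≠ 0 := fun h => hc0 (Subtype.ext h)
      have hu' : a * (J i0 (α : L) / J i (α : L)) = (t : A) * (c : A) ^ 2 :=
        congrArg Subtype.val hu
      refine ⟨t, S.ι c * β, Set.mem_insert_of_mem _ ⟨t, ht, rfl⟩, ht0, t.2,
        mul_ne_zero (hι hc0') hβ0, S.fix_mul (S.fix_ι c.2) hβF, ?_⟩
      rw [← hβ, mul_pow, ← map_pow, ← mul_assoc, ← map_mul]
      congr 2
      have h5 := hJα i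
      have h6 := hJα i0
      have h7 : (t : A) * (J i (α : L) / J i0 (α : L)) * (c : A) ^ 2 =
          ((t : A) * (c : A) ^ 2) * (J i (α : L) / J i0 (α : L)) := by ring
      rw [h7, ← hu']
      field_simp
  choose t β ht1 ht0 hts hβ0 hβF hβ using hex
  have hlex : ∀ (σ : A ≃ₐ[ℚ] A) (i : Rt f A), ∃ y : A,
      S.s σ (β i) * β (ra σ i0) = S.ι y * β (ra σ i) := by
    intro σ i
    set q : Rt f A → A := fun i => t i * (J i (α : L) / J i0 (α : L)) with hq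
    have hq0 : ∀ i, q i ≠ 0 := fun i => mul_ne_zero (ht0 i) (div_ne_zero (hJα _) (hJα _))
    have h1 := congrArg (S.s σ) (hβ i)
    rw [map_mul, map_pow, map_div₀, map_sub, map_sub, S.hι, S.hι, S.hι, S.hx] at h1
    have h2 := hβ (ra σ i)
    have h3 := hβ (ra σ i0)
    have h4 : (S.s σ (β i) * β (ra σ i0) / β (ra σ i)) ^ 2 =
        S.ι (q (ra σ i) / (σ (q i) * q (ra σ i0))) := by
      have f1 := hι (hq0 (ra σ i))
      have f2 := hι (hq0 (ra σ i0))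
      have f3 := hι ((_root_.map_ne_zero σ).2 (hq0 i))
      have f4 := hβ0 (ra σ i)
      have f5 := hx (ra σ i).1
      have f6 := hx (ra σ i0).1
      have f7 := hx i0.1
      have g1 : (S.s σ (β i)) ^ 2 = (S.x - S.ι (ra σ i).1) / (S.x - S.ι (ra σ i0).1) /
          S.ι (σ (q i)) := by
        rw [eq_div_iff f3, mul_comm]
        exact h1
      have g2 : β (ra σ i) ^ 2 = (S.x - S.ι (ra σ i).1) / (S.x - S.ι i0.1) / S.ι (q (ra σ i)) := by
        rw [eq_div_iff f1, mul_comm]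
        exact h2
      have g3 : β (ra σ i0) ^ 2 = (S.x - S.ι (ra σ i0).1) / (S.x - S.ι i0.1) /
          S.ι (q (ra σ i0)) := by
        rw [eq_div_iff f2, mul_comm]
        exact h3
      have e3 : S.ι (q (ra σ i) / (σ (q i) * q (ra σ i0))) =
          S.ι (q (ra σ i)) / (S.ι (σ (q i)) * S.ι (q (ra σ i0))) :=
        (map_div₀ S.ι _ _).trans (congrArg _ (map_mul S.ι (σ (q i)) _))
      rw [e3, div_pow, mul_pow, g1, g2, g3]
      field_simp
    obtain ⟨y, hy⟩ := root_mem S.ι (n := 2) (by norm_num) h4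
    exact ⟨y, by rw [hy]; field_simp [hβ0 (ra σ i)]⟩
  choose lam hlam using hlex
  exact ⟨t, lam, ht1, ⟨hα0, ht0, hts, β, hβ0, hβF, hβ, hlam⟩⟩

end

end Pool.Agent.Q161.SX
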