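import Pool.Agent.Q161.SX.Main
import Pool.Agent.W623.SecE.Glb

/-! # Project SX: points and sections -/

set_option autoImplicit false

namespace Pool.Agent.Q161.SX

open Polynomial
open Pool.Agent.Q51.EL
open Pool.Agent.W620.SC (GSection unramified)

universe u v w

theorem natAbs_finite (X : ℝ) (P : ℤ → Prop) : {D : ℤ | (D.natAbs : ℝ) ≤ X ∧ P D}.Finite := by
  refine (Set.finite_Icc (-⌊X⌋) ⌊X⌋).subset ?_
  rintro D ⟨h1, -⟩
  have h2 : |(D : ℝ)| ≤ X := by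
    rw [Nat.cast_natAbs, Int.cast_abs] at h1
    exact h1
  rw [Set.mem_Icc]
  have h3 := abs_le.1 h2
  constructor
  · have : -(D : ℝ) ≤ X := by linarith [h3.1]
    have h4 : (-D : ℤ) ≤ ⌊X⌋ := Int.le_floor.2 (by push_cast; exact this)
    omega
  · exact Int.le_floor.2 h3.2

/-- a pair `(x, y)` with `x` algebraic gives a rational point -/
theorem curvePt_of_alg {f : ℤ[X]} {D : ℤ} (hD : D ≠ 0) {F : Type v} {Ω : Type w} [Field F] [Field Ω]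
    [Algebra ℚ F] [Algebra F Ω] [Algebra ℚ Ω] [IsScalarTower ℚ F Ω] [IsAlgClosed Ω]
    [Algebra.IsAlgebraic F Ω] (U : Set (ValuationSubring F))
    (hU : ∀ O ∈ U, ∀ c : ℚ, algebraMap ℚ F c ∈ O) (G : GSection ℚ F Ω U) (x y : F)
    (hxy : (D : F) * y ^ 2 = aeval x f) (hx : ¬ Transcendental ℚ x) : CurvePt f D ℚ := by
  obtain ⟨x', y', -, -, h⟩ := Pool.Agent.W623.SecE.secpt ℚ F Ω (f.map (Int.castRingHom ℚ)) (D : ℚ)
    (by exact_mod_cast hD) U hU G x y (by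
      rw [map_intCast, hxy, aeval_def, aeval_def, eval₂_map]
      congr 1
      exact RingHom.ext_int _ _) hx
  refine ⟨x', 1, y', Or.inr one_ne_zero, ?_⟩
  rw [h, eval_map, eval₂_eq_sum_range, hom]
  refine Finset.sum_congr rfl fun i _ => ?_
  rw [one_pow, mul_one]
  rfl

/-- `C_D` or one of the curves over it has a rational point or a section -/
def Bad (f : ℤ[X]) (D : ℤ) : Prop :=
  CurvePt f D ℚ ∨ ∃ (F : Type v) (Ω : Type w) (_ : Field F) (_ : Field Ω) (_ : Algebra ℚ F)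
    (_ : Algebra F Ω) (_ : Algebra ℚ Ω) (_ : IsScalarTower ℚ F Ω) (_ : IsAlgClosed Ω)
    (_ : Algebra.IsAlgebraic F Ω)
    (U : Set (ValuationSubring F)) (x y : F), (∀ O ∈ U, ∀ c : ℚ, algebraMap ℚ F c ∈ O) ∧
    Nonempty (GSection ℚ F Ω U) ∧ (D : F) * y ^ 2 = aeval x f

theorem bad_count (hSEC : S_SEC.{v, w}) (hTRA : S_TRA.{0, w, w}) (hFIN : S_FIN.{w})
    (hMAIN : S_MAIN) (f : ℤ[X])
    (hf : Irreducible (f.map (Int.castRingHom ℚ))) (hev : Even f.natDegree) (h6 : 6 ≤ f.natDegree) :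
    ∃ δ C X0 : ℝ, 0 < δ ∧ ∀ X : ℝ, X0 ≤ X →
    (({D : ℤ | (D.natAbs : ℝ) ≤ X ∧ Squarefree D ∧ Bad.{v, w} f D}.ncard : ℕ) : ℝ) ≤
    C * Real.log X ^ (-δ) *
      (({D : ℤ | (D.natAbs : ℝ) ≤ X ∧ Squarefree D ∧ ELS f D}.ncard : ℕ) : ℝ) := by
  obtain ⟨δ1, C1, X1, hδ1, h1⟩ := sec_count hSEC hTRA hFIN f hf hev h6
  obtain ⟨-, hlift, ⟨δ2, C2, hδ2, h2⟩, -⟩ := hMAIN f hf hev h6
  refine ⟨min δ1 δ2, max C1 0 + max C2 0, max X1 3, lt_min hδ1 hδ2, fun X hX => ?_⟩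
  have hX1 : X1 ≤ X := (le_max_left _ _).trans hX
  have hX3 : 3 ≤ X := (le_max_right _ _).trans hX
  have hlog : 1 ≤ Real.log X := by
    rw [← Real.log_exp 1]
    refine Real.log_le_log (Real.exp_pos _) (le_trans ?_ hX3)
    exact (Real.exp_one_lt_d9.trans (by norm_num)).le
  have hsub : {D : ℤ | (D.natAbs : ℝ) ≤ X ∧ Squarefree D ∧ Bad.{v, w} f D} ⊆
      {D : ℤ | (D.natAbs : ℝ) ≤ X ∧ Squarefree D ∧ HasSec.{v, w} f D} ∪
      {D : ℤ | (D.natAbs : ℝ) ≤ X ∧ Squarefree D ∧ Sel f D} := by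
    rintro D ⟨h3, h4, h5 | ⟨F, Ω, i1, i2, i3, i4, i5, i6, i7, i8, U, x, y, hU, ⟨G⟩, hxy⟩⟩
    · exact Or.inr ⟨h3, h4, hlift D h5⟩
    · by_cases hx : Transcendental ℚ x
      · exact Or.inl ⟨h3, h4, F, Ω, i1, i2, i3, i4, i5, i6, i7, i8, U, x, y, hU, ⟨G⟩, hxy, hx⟩
      · exact Or.inr ⟨h3, h4, hlift D (curvePt_of_alg h4.ne_zero U hU G x y hxy hx)⟩
  have h3 := (Set.ncard_le_ncard hsub ((natAbs_finite X _).union (natAbs_finite X _))).trans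
    (Set.ncard_union_le _ _)
  have h4 : (({D : ℤ | (D.natAbs : ℝ) ≤ X ∧ Squarefree D ∧ Bad.{v, w} f D}.ncard : ℕ) : ℝ) ≤
      (({D : ℤ | (D.natAbs : ℝ) ≤ X ∧ Squarefree D ∧ HasSec.{v, w} f D}.ncard : ℕ) : ℝ) +
      (({D : ℤ | (D.natAbs : ℝ) ≤ X ∧ Squarefree D ∧ Sel f D}.ncard : ℕ) : ℝ) := by
    exact_mod_cast h3
  obtain ⟨M, hM⟩ : ∃ M : ℝ, M = (({D : ℤ | (D.natAbs : ℝ) ≤ X ∧ Squarefree D ∧
    ELS f D}.ncard : ℕ) : ℝ) := ⟨_, rfl⟩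
  have h5 := h1 X hX1
  have h6 := h2 X hX3
  rw [← hM] at h5 h6 ⊢
  have hM0 : 0 ≤ M := by rw [hM]; exact Nat.cast_nonneg _
  have h7 : Real.log X ^ (-δ1) ≤ Real.log X ^ (-(min δ1 δ2)) :=
    Real.rpow_le_rpow_of_exponent_le hlog (by linarith [min_le_left δ1 δ2])
  have h8 : Real.log X ^ (-δ2) ≤ Real.log X ^ (-(min δ1 δ2)) :=
    Real.rpow_le_rpow_of_exponent_le hlog (by linarith [min_le_right δ1 δ2])
  have e1 : C1 * Real.log X ^ (-δ1) * M ≤ max C1 0 * Real.log X ^ (-(min δ1 δ2)) * M := by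
    refine mul_le_mul_of_nonneg_right ?_ hM0
    exact mul_le_mul (le_max_left _ _) h7 (by positivity) (le_max_right _ _)
  have e2 : C2 * Real.log X ^ (-δ2) * M ≤ max C2 0 * Real.log X ^ (-(min δ1 δ2)) * M := by
    refine mul_le_mul_of_nonneg_right ?_ hM0
    exact mul_le_mul (le_max_left _ _) h8 (by positivity) (le_max_right _ _)
  rw [add_mul, add_mul]
  linarith

end Pool.Agent.Q161.SX
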