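import Pool.Agent.Q161.SX.Stm
import Pool.Agent.W623.SecE.Stm

/-! # Project SX: the statement about fundamental groups, from the parts -/

set_option autoImplicit false

namespace Pool.Agent.Q161.SX

open Polynomial NumberField IsDedekindDomain
open Pool.Agent.Q51.EL
open Pool.Agent.W620.SC (GSection unramified)

universe u v w

/-- the curve `D y² = f(x)` or one of its open subcurves or one of the curves over it has a section -/
def HasSec (f : ℤ[X]) (D : ℤ) : Prop :=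
  ∃ (F : Type v) (Ω : Type w) (_ : Field F) (_ : Field Ω) (_ : Algebra ℚ F) (_ : Algebra F Ω)
    (_ : Algebra ℚ Ω) (_ : IsScalarTower ℚ F Ω) (_ : IsAlgClosed Ω) (_ : Algebra.IsAlgebraic F Ω)
    (U : Set (ValuationSubring F)) (x y : F), (∀ O ∈ U, ∀ c : ℚ, algebraMap ℚ F c ∈ O) ∧
    Nonempty (GSection ℚ F Ω U) ∧ (D : F) * y ^ 2 = aeval x f ∧ Transcendental ℚ x

theorem equiv_ex (k : Type u) (A : Type v) (Ω : Type w) [Field k] [Field A] [Field Ω] [Algebra k A]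
    [Algebra k Ω] [IsAlgClosed Ω] [IsAlgClosure k A] : Nonempty (A ≃+* algebraicClosure k Ω) :=
  ⟨(IsAlgClosure.equiv k A (algebraicClosure k Ω)).toRingEquiv⟩

theorem rat_equiv (A : Type u) (A' : Type v) [Field A] [Field A'] [Algebra ℚ A] [Algebra ℚ A']
    (e : A ≃+* A') : Nonempty (A ≃ₐ[ℚ] A') :=
  ⟨AlgEquiv.ofRingEquiv (f := e) (fun r => RingHom.map_rat_algebraMap e.toRingHom r)⟩

theorem closure_ex (k : Type u) [Field k] :
    ∃ (A : Type u) (_ : Field A) (_ : Algebra k A), IsAlgClosure k A :=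
  ⟨AlgebraicClosure k, inferInstance, inferInstance, inferInstance⟩

/-- the count for sections -/
theorem sec_count (hSEC : S_SEC.{v, w}) (hTRA : S_TRA.{0, w, w}) (hFIN : S_FIN.{w}) (f : ℤ[X])
    (hf : Irreducible (f.map (Int.castRingHom ℚ))) (hev : Even f.natDegree) (h6 : 6 ≤ f.natDegree) :
    ∃ δ C X0 : ℝ, 0 < δ ∧ ∀ X : ℝ, X0 ≤ X →
    (({D : ℤ | (D.natAbs : ℝ) ≤ X ∧ Squarefree D ∧ HasSec.{v, w} f D}.ncard : ℕ) : ℝ) ≤
    C * Real.log X ^ (-δ) *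
      (({D : ℤ | (D.natAbs : ℝ) ≤ X ∧ Squarefree D ∧ ELS f D}.ncard : ℕ) : ℝ) := by
  classical
  obtain ⟨B, hB, hS⟩ := hSEC f hf.separable hev (by omega)
  obtain ⟨A, iA, iA', hA⟩ := closure_ex ℚ
  obtain ⟨δ, C, X0, hδ, h⟩ := hFIN f hf hev h6 A B hB
  refine ⟨δ, C, X0, hδ, fun X hX => le_trans ?_ (h X hX)⟩
  have hsub : {D : ℤ | (D.natAbs : ℝ) ≤ X ∧ Squarefree D ∧ HasSec.{v, w} f D} ⊆
      {D : ℤ | (D.natAbs : ℝ) ≤ X ∧ Squarefree D ∧
      ∃ (M : Type w) (_ : Field M) (S : Sec f A M), S.Good D B} := by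
    rintro D ⟨h1, h2, F, Ω, i1, i2, i3, i4, i5, i6, i7, i8, U, x, y, hU, ⟨G⟩, hxy, hx⟩
    refine ⟨h1, h2, ?_⟩
    obtain ⟨S', hS'⟩ := hS D h2 F Ω U hU G x y hxy hx
    obtain ⟨e0⟩ := equiv_ex ℚ A Ω
    obtain ⟨e⟩ := rat_equiv A (algebraicClosure ℚ Ω) e0
    obtain ⟨S, hS⟩ := hTRA f A (algebraicClosure ℚ Ω) (unramified F Ω U) e S' D B hS'
    exact ⟨_, inferInstance, S, hS⟩
  have hfin : {D : ℤ | (D.natAbs : ℝ) ≤ X ∧ Squarefree D ∧
      ∃ (M : Type w) (_ : Field M) (S : Sec f A M), S.Good D B}.Finite := by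
    refine (Set.finite_Icc (-⌊X⌋) ⌊X⌋).subset ?_
    rintro D ⟨h1, -⟩
    have h2 : |(D : ℝ)| ≤ X := by
      rw [Nat.cast_natAbs, Int.cast_abs] at h1
      exact h1
    rw [Set.mem_Icc]
    have h3 := abs_le.1 h2
    constructor
    · have : -(D : ℝ) ≤ X := by linarith [h3.1]
      have h4 : (-D : ℤ) ≤ ⌊X⌋ := Int.le_floor.2 (by push_cast; exact this)
      omega
    · exact Int.le_floor.2 h3.2
  exact_mod_cast Set.ncard_le_ncard hsub hfin

end Pool.Agent.Q161.SX
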