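import Pool.Agent.Q161.SX.Def
import Pool.Agent.Q51.EL.Stm
import Pool.Agent.W620.SC.Def
import Pool.Agent.W623.SecE.Sym

/-!
# Project SX (helper161): the section conjecture for 100% of the everywhere locally soluble twists

GOAL.  `f ∈ ℤ[X]` irreducible over `ℚ`, of even degree `n ≥ 6`.  For all but a proportion
`O((log X) ^ (-δ))` of the squarefree `D`, `|D| ≤ X`, for which `C_D : D y² = f(x)` is everywhere
locally soluble, the fundamental group of the projective curve `C_D`, and of all its open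
subcurves, has no section.

PROOF.  A section `s` gives, at every prime `l` outside a finite set, the data `Sec.Loc`
(library `W623.SecC`, `W623.SecE`): if `l ∤ D` all Kummer classes are even at `l`; if `l ∣ D` there is
one zero `r` of `f`, fixed by Frobenius, such that the Kummer classes of `(x - i)/(x - r)` are odd, and
the ratios `(x - i)/(x - j)`, `i, j ≠ r`, have canonical square roots.  Let `v0(l)` be the prime of
`L = ℚ(θ)` given by `r`, and let `α ∈ 𝓞 L` be a generator of `∏ v0(l)` times a small ideal, with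
conjugates `≤ C |D| ^ (1/n)` (`S_CLU`).  The Kummer class of `(x - i)/(x - i0)` is `t i * α_i / α_{i0}` with
`t i` in a finite set (`S_SEL`, `S_EVN`).  `s(σ)` acts on the square roots by elements `lam` from a
finite set of functions (`S_TFN`).  For two sections of the same type `(t, lam)` and the same `v0(l)` the
product `α α'` is a constant times a square modulo the other primes above `l` (`S_TY2`).  So the
elements `α` of each type satisfy the hypotheses of the large sieve (`EL.S_CORE`).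
-/

set_option autoImplicit false

namespace Pool.Agent.Q161.SX

open Polynomial NumberField IsDedekindDomain Finset
open Pool.Agent.W623.SecC (IsU)
open Pool.Agent.Q51.EL

universe u v w x

/-! ## Part A: places -/

/-- JOB PLC. A valuation ring of `A` above `l` and a Frobenius element at it.
Proof: `W623.SecC.PartB1` (proved: `W327.SecC.partB1`) for the localisation of `ℤ` at `l`
(`W240.S3.zloc`). -/
def S_PLC : Prop := ∀ (A : Type) [Field A] [Algebra ℚ A] [IsAlgClosure ℚ A] (l : ℕ), l.Prime →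
  ∃ (V : ValuationSubring A) (φ : A ≃ₐ[ℚ] A), (l : A) ∈ V.nonunits ∧ Frb V l φ

/-- JOB CNJ. The valuation rings of `A` above `l` are conjugate.
Proof: both lie above the localisation of `ℤ` at `l`, and `A` is normal over `ℚ`: `Y157.PS.S_CONJ`
(proved in `Pool/Agent/Y157/PS`, search `theorem .* : S_CONJ`). -/
def S_CNJ : Prop := ∀ (A : Type) [Field A] [Algebra ℚ A] [IsAlgClosure ℚ A] (l : ℕ), l.Prime →
  ∀ V V' : ValuationSubring A, (l : A) ∈ V.nonunits → (l : A) ∈ V'.nonunits →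
  ∃ τ : A ≃ₐ[ℚ] A, ∀ z, τ z ∈ V' ↔ z ∈ V

/-- JOB PRM. The primes of `L` above `l` and the embeddings of `L` in `A` (uses `S_CNJ`).
Proof.  (1) `v` is the inverse image of the maximal ideal of `V` under `j` (integral elements lie in
`V`); the valuation rings `j⁻¹(V)` and the one of `v` are equal, since the localisation of `𝓞 L` at
`v`, a discrete valuation ring, is contained in `j⁻¹(V) ≠ L`.  (2) `L` has an embedding `j0` in `A`, the
valuation ring of `v` has a prolongation `V'` to `A` with respect to `j0` (`Y157.PS.S_EXTV`), and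
`V' = τ V` for some `τ`; take `j = τ⁻¹ ∘ j0`. -/
def S_PRM : Prop := ∀ (A : Type) [Field A] [Algebra ℚ A] [IsAlgClosure ℚ A] (L : Type) [Field L]
  [NumberField L] (l : ℕ), l.Prime → ∀ V : ValuationSubring A, (l : A) ∈ V.nonunits →
  (∀ j : L →ₐ[ℚ] A, ∃ v : HeightOneSpectrum (𝓞 L), Abv v l ∧
    (∀ a : 𝓞 L, a ∈ v.asIdeal ↔ j (a : L) ∈ V.nonunits) ∧
    ∀ a : L, a ≠ 0 → (IsU V (j a) ↔ v.valuation L a = 1)) ∧
  ∀ v : HeightOneSpectrum (𝓞 L), Abv v l →
    ∃ j : L →ₐ[ℚ] A, ∀ a : 𝓞 L, a ∈ v.asIdeal ↔ j (a : L) ∈ V.nonunits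

/-- JOB EVN. Even parity at all primes of a number field `K ⊆ A` from even parity of all conjugates at
one place (uses `S_PRM`).
Proof.  By `S_PRM` (2) for `L = K` there is an embedding `j` of `K` in `A` which gives `w`; it extends to
an automorphism `τ` of `A`.  `IsU V (τ u / l ^ (2 m))` gives `w(u / l ^ (2 m)) = 1` by `S_PRM` (1) (the `v`
there is `w`, as both have the same elements), so `w(u) = w(l) ^ (2 m)`. -/
def S_EVN : Prop := ∀ (A : Type) [Field A] [Algebra ℚ A] [IsAlgClosure ℚ A]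
  (K : IntermediateField ℚ A) [NumberField K] (l : ℕ), l.Prime →
  ∀ V : ValuationSubring A, (l : A) ∈ V.nonunits → ∀ u : K, u ≠ 0 →
  (∀ τ : A ≃ₐ[ℚ] A, PV V l (τ (u : A)) 0) →
  ∀ w : HeightOneSpectrum (𝓞 K), Abv w l → Par w u 0

/-- JOB DST. The zeros of `f` are distinct modulo `V`, for `l` outside a finite set.
Proof: `B` = leading coefficient times a nonzero integer of the form `P f + Q f'`, `P, Q ∈ ℤ[X]`.  The
zeros are integral over the localisation of `ℤ` at `l`, so they lie in `V`; if `i - j` is not a unit,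
then `f'(i) ≡ 0`: `f = a ∏ (X - e)`, `f'(i) = a ∏_{e ≠ i} (i - e)`.  Compare `SecC.roots_distinct`. -/
def S_DST : Prop := ∀ f : ℤ[X], (f.map (Int.castRingHom ℚ)).Separable → ∃ B : ℕ, B ≠ 0 ∧
  ∀ (A : Type) [Field A] [Algebra ℚ A] [IsAlgClosure ℚ A] (l : ℕ), l.Prime → ¬ l ∣ B →
  ∀ V : ValuationSubring A, (l : A) ∈ V.nonunits →
  IsU V (f.leadingCoeff : A) ∧ (∀ i : Rt f A, i.1 ∈ V) ∧ ∀ i j : Rt f A, i ≠ j → IsU V (i.1 - j.1)

/-- JOB NRM. The prime of `L` given by an embedding fixed by Frobenius has degree one.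
Proof.  `φ ∘ j = j`, since `θ` generates `L`.  So for `g ∈ 𝓞 L`: `j g ≡ φ (j g) ≡ (j g) ^ l` modulo `V`,
`g ^ l - g ∈ v`; so all elements of the finite field `𝓞 L / v` are zeros of `X ^ l - X`, it has at most `l`
elements, and it has characteristic `l`. -/
def S_NRM : Prop := ∀ (f : ℤ[X]) (L : Type) [Field L] [NumberField L] (θ : L), Setup f L θ →
  ∀ (A : Type) [Field A] [Algebra ℚ A] (l : ℕ), l.Prime → ∀ (V : ValuationSubring A)
  (φ : A ≃ₐ[ℚ] A), (l : A) ∈ V.nonunits → Frb V l φ → ∀ j : L →ₐ[ℚ] A, φ (j θ) = j θ →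
  ∀ v : HeightOneSpectrum (𝓞 L), (∀ a : 𝓞 L, a ∈ v.asIdeal ↔ j (a : L) ∈ V.nonunits) →
  Ideal.absNorm v.asIdeal = l ∧
  ∀ g : 𝓞 L, ∃ c : ℤ, g - (c : 𝓞 L) ∈ v.asIdeal

/-- JOB RES. Elements of the residue field of `V` fixed by powers of Frobenius (uses `S_DST`).
Proof.  Let `κ` be the residue field of `V`, `θ̄, z̄` the images of `j θ`, `z`, `F_l(θ̄)` of degree `d` over the
prime field `F_l ⊆ κ`; then `θ̄ ^ (l^d) = θ̄`, i.e. `φ^d (j θ) ≡ j θ`, both are zeros of `f`, so they are equal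
(`S_DST`); so `φ^d z = z` and `z̄ ^ (l^d) = z̄`.  The field `F_l(θ̄)` has `l^d` elements, all zeros of
`X ^ (l^d) - X`, so it contains `z̄`; `z̄ = P(θ̄)` with `P ∈ F_l[X]`; `t = a θ ∈ 𝓞 L` (`a` the leading
coefficient, a unit at `l`), so `z̄ = Q(t̄)` with `Q ∈ ℤ[X]`, and `g = Q(t)`. -/
def S_RES : Prop := ∀ (f : ℤ[X]) (L : Type) [Field L] [NumberField L] (θ : L), Setup f L θ →
  ∃ B : ℕ, B ≠ 0 ∧ ∀ (A : Type) [Field A] [Algebra ℚ A] [IsAlgClosure ℚ A] (l : ℕ), l.Prime →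
  ¬ l ∣ B → ∀ (V : ValuationSubring A) (φ : A ≃ₐ[ℚ] A), (l : A) ∈ V.nonunits → Frb V l φ →
  ∀ (j : L →ₐ[ℚ] A) (z : A), z ∈ V → (∀ m : ℕ, (φ ^ m) (j θ) = j θ → (φ ^ m) z = z) →
  ∃ g : 𝓞 L, j (g : L) - z ∈ V.nonunits

/-! ## Part B: class group and units -/

/-- JOB CLU. Generators of products of primes (uses `EL.S_UN`).
Proof.  Let `𝔠_1, .., 𝔠_h` be nonzero ideals, one in each class, `B` the product of their norms.  For some
`i`, `𝔠_i ∏_{v ∈ S} v = (α0)`; its norm is `≤ C0 ∏ N v`; and `α = α0 u²` with `u` from `EL.S_UN`. -/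
def S_CLU : Prop := ∀ (L : Type) [Field L] [NumberField L], ∃ (B : ℕ) (C : ℝ), B ≠ 0 ∧ 0 < C ∧
  ∀ S : Finset (HeightOneSpectrum (𝓞 L)), (∀ v ∈ S, (B : 𝓞 L) ∉ v.asIdeal) →
  ∃ α : 𝓞 L, α ≠ 0 ∧
    (∀ v : HeightOneSpectrum (𝓞 L), (B : 𝓞 L) ∉ v.asIdeal →
      (v ∈ S → v.valuation L (α : L) = WithZero.exp (-1 : ℤ)) ∧
      (v ∉ S → v.valuation L (α : L) = 1)) ∧
    ∀ σ : L →+* ℂ, ‖σ (α : L)‖ ≤
      C * (∏ v ∈ S, ((Ideal.absNorm v.asIdeal : ℕ) : ℝ)) ^ ((1 : ℝ) / Module.finrank ℚ L)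

/-- JOB SEL. The elements with even valuations outside `B` form finitely many square classes (uses
`EL.S_CL`, `EL.S_UN`).
Proof.  Let `B0` be the number of `EL.S_CL`.  Apply `EL.S_CL` to `u` and to the finite set `S` of the primes
`v` which divide `B`, do not divide `B0`, and at which `u` has odd valuation: `α = u η²` is integral, of
norm bounded in terms of `B`; by `EL.S_UN` there is a unit `ε` such that all conjugates of `α ε²` are
bounded; there are finitely many such elements (`NumberField.Embeddings.finite_of_norm_le`). -/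
def S_SEL : Prop := ∀ (K : Type) [Field K] [NumberField K] (B : ℕ), B ≠ 0 →
  ∃ T : Finset K, (0 : K) ∉ T ∧ ∀ u : K, u ≠ 0 →
  (∀ v : HeightOneSpectrum (𝓞 K), (B : 𝓞 K) ∉ v.asIdeal → Par v u 0) →
  ∃ t ∈ T, ∃ c : K, c ≠ 0 ∧ u = t * c ^ 2

/-! ## Part C: sections -/

/-- JOB KUM. Existence of the Kummer classes.
Proof.  Let `α ^ 2 = (x - i)/(x - j)` (`Sec.hsq`), `K = spl f A`.  For `σ` trivial on `K`, `s(σ) α = ± α`.
`W620.SC.exists_fixed_multiple` (Hilbert 90) gives `b ∈ A^*` such that `β = ι b * α` is fixed by these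
`s(σ)`; `b ^ 2` is fixed by all `σ` trivial on `K`, so it lies in `K` (`mem_of_fixed`); `a = b ^ (-2)`.  Compare
the end of the proof of `W623.SecE.secglob`. -/
def S_KUM : Prop := ∀ (f : ℤ[X]) (A : Type) (M : Type v) [Field A] [Algebra ℚ A] [IsAlgClosure ℚ A]
  [Field M] (S : Sec f A M) (i j : Rt f A), ∃ a : A, S.Kc i j a

/-- JOB TFN. The types are finite in number.
Proof.  `Rt f A` is finite.  Since `lam σ i ^ 2 = t (ra σ i) / (σ (t i) * t (ra σ i0))` (all `t i ≠ 0`; the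
conjugates of the elements of `T` are finitely many), `lam σ i` lies in a finite set; and `lam σ`
depends only on the restriction of `σ` to `spl f A`, a finite Galois extension of `ℚ`: there are
finitely many restrictions. -/
def S_TFN : Prop := ∀ (f : ℤ[X]) (A : Type) [Field A] [Algebra ℚ A] [IsAlgClosure ℚ A], f ≠ 0 →
  ∀ (i0 : Rt f A) (T : Set A), T.Finite → (0 : A) ∉ T →
  {p : (Rt f A → A) × ((A ≃ₐ[ℚ] A) → Rt f A → A) | (∀ i, p.1 i ∈ T) ∧
    (∀ σ i, p.2 σ i ^ 2 * σ (p.1 i) * p.1 (ra σ i0) = p.1 (ra σ i)) ∧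
    ∀ σ τ : A ≃ₐ[ℚ] A, (∀ z ∈ spl f A, σ z = τ z) → p.2 σ = p.2 τ}.Finite

/-- JOB LAM. The relations satisfied by `lam`.
Proof.  Apply `s(σ)` to the equation of `β i` and compare with the equations of `β (ra σ i)` and
`β (ra σ i0)`; note `σ (J i z) = J (ra σ i) z` for `z ∈ L` (both are embeddings with `θ ↦ σ i`).  If `σ = τ`
on `spl f A`, then `ra σ = ra τ`, and `s(σ) (β i) = s(τ) (s(τ⁻¹ σ) (β i)) = s(τ) (β i)`. -/
def S_LAM : Prop := ∀ (f : ℤ[X]) (L : Type) [Field L] [NumberField L] (θ : L), Setup f L θ →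
  ∀ (A : Type) (M : Type v) [Field A] [Algebra ℚ A] [IsAlgClosure ℚ A] [Field M] (S : Sec f A M)
  (J : Rt f A → (L →ₐ[ℚ] A)), (∀ i, J i θ = i.1) → ∀ (i0 : Rt f A) (α : 𝓞 L) (t : Rt f A → A)
  (lam : (A ≃ₐ[ℚ] A) → Rt f A → A), Att S J i0 α t lam →
  (∀ σ i, lam σ i ^ 2 * σ (t i) * t (ra σ i0) = t (ra σ i)) ∧
  ∀ σ τ : A ≃ₐ[ℚ] A, (∀ z ∈ spl f A, σ z = τ z) → lam σ = lam τ

/-- JOB TY2 (helper161). Two sections of the same type. -/
def S_TY2 : Prop := ∀ (f : ℤ[X]) (L : Type) [Field L] [NumberField L] (θ : L), Setup f L θ →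
  ∃ B : ℕ, B ≠ 0 ∧ ∀ (A : Type) [Field A] [Algebra ℚ A] [IsAlgClosure ℚ A] (l : ℕ), l.Prime →
  ¬ l ∣ B → ∀ (V : ValuationSubring A) (φ : A ≃ₐ[ℚ] A), (l : A) ∈ V.nonunits → Frb V l φ →
  ∀ (J : Rt f A → (L →ₐ[ℚ] A)), (∀ i, J i θ = i.1) → ∀ (i0 r : Rt f A) (t : Rt f A → A)
  (lam : (A ≃ₐ[ℚ] A) → Rt f A → A) (M : Type v) (M' : Type v) [Field M] [Field M'] (S : Sec f A M)
  (S' : Sec f A M') (α α' : 𝓞 L), Att S J i0 α t lam → Att S' J i0 α' t lam → ra φ r = r →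
  (∀ i, i ≠ r → IsU V (J i (α : L)) ∧ IsU V (J i (α' : L))) →
  (∃ γ : Rt f A → M, (∀ i, γ i ≠ 0) ∧ ∀ i j, i ≠ r → j ≠ r →
      (γ i / γ j) ^ 2 = (S.x - S.ι i.1) / (S.x - S.ι j.1) * S.ι ((r.1 - j.1) / (r.1 - i.1)) ∧
      S.s φ (γ i / γ j) = γ (ra φ i) / γ (ra φ j)) →
  (∃ γ : Rt f A → M', (∀ i, γ i ≠ 0) ∧ ∀ i j, i ≠ r → j ≠ r →
      (γ i / γ j) ^ 2 = (S'.x - S'.ι i.1) / (S'.x - S'.ι j.1) * S'.ι ((r.1 - j.1) / (r.1 - i.1)) ∧
      S'.s φ (γ i / γ j) = γ (ra φ i) / γ (ra φ j)) →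
  ∃ c : ℤ, ¬ (l : ℤ) ∣ c ∧ ∀ i, i ≠ r → ∃ g : 𝓞 L,
    J i (((c : 𝓞 L) * α * α' - g ^ 2 : 𝓞 L) : L) ∈ V.nonunits

/-! ## Part D: from sections of the fundamental group to `Sec` -/

/-- JOB GAM. Canonical signs: the square roots `γ i` of `Gm` can be changed by signs so that Frobenius
permutes them up to one common sign.
Proof: in the proof of `W623.SecC.Dat.Gm.sum_yy` (file `SecE/Gam3.lean`): `hyy : B.yy i = κ + u i b +
u (B.π i) b`; so `γ' i = sg M (u i b) * B.γ i` satisfies `D.s D.φ (γ' i) = sg M κ * γ' (B.π i)`. -/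
def S_GAM : Prop := ∀ (k : Type u) (A : Type v) (M : Type w) [Field k] [Field A] [Field M]
  [Algebra k A] [CharZero k] [IsAlgClosed A] [Algebra.IsAlgebraic k A]
  (D : Pool.Agent.W623.SecC.Dat k A M) (Y : Type x) [Fintype Y] [DecidableEq Y] (B : D.Gm Y) (q : ℕ),
  D.Ok q → 3 ≤ Fintype.card Y →
  ∃ (g : Y → M) (κ : M), (κ = 1 ∨ κ = -1) ∧ (∀ i, g i = B.γ i ∨ g i = - B.γ i) ∧
    ∀ i, D.s D.φ (g i) = κ * g (B.π i)

/-- JOB SEC. The abstract section attached to a section of the fundamental group.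
Proof: adapt the proof of `W623.SecE.secloc'` (`SecE/Loc.lean`; base ring = localisation of `ℤ` at `l`,
`W240.S3.zloc`; the valuation ring `V` and the Frobenius element are given, `partB3` gives the tame field).
`s = (toRingAutHom ..).comp G.toHom`, `ι = constHom hU`, `cont` = `W623.SecE.sec_cont`, `hsq` = `ratio_root`.
`even` and `odd`: `Dat.Br.even`, `Dat.Br.odd`; if `ι a * β ^ 2 = (x - i)/(x - j)` with `β` fixed over the
splitting field (contained in the tame field), `Par.const` and `Par.unique` compare the value of `a` with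
`B.n i j`.  The `γ` : as in `Dat.Br.symbol` (file `SecE/Sym.lean`) with `S_GAM` instead of `prod_fixed`; put
`γ r = 1`. -/
def S_SEC : Prop := ∀ f : ℤ[X], (f.map (Int.castRingHom ℚ)).Separable → Even f.natDegree →
  4 ≤ f.natDegree → ∃ B : ℕ, B ≠ 0 ∧ ∀ D : ℤ, Squarefree D →
  ∀ (F : Type v) (Ω : Type w) [Field F] [Field Ω] [Algebra ℚ F] [Algebra F Ω] [Algebra ℚ Ω]
    [IsScalarTower ℚ F Ω] [IsAlgClosed Ω] [Algebra.IsAlgebraic F Ω]
    (U : Set (ValuationSubring F)), (∀ O ∈ U, ∀ c : ℚ, algebraMap ℚ F c ∈ O) →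
    ∀ (_ : Pool.Agent.W620.SC.GSection ℚ F Ω U) (x y : F), (D : F) * y ^ 2 = aeval x f →
    Transcendental ℚ x →
    ∃ S : Sec f (algebraicClosure ℚ Ω) (Pool.Agent.W620.SC.unramified F Ω U), S.Good D B

/-- JOB TRA. Transport of abstract sections along isomorphisms of the algebraic closures.
Proof: `s σ = S'.s (e σ e⁻¹)`, `ι = S'.ι ∘ e`, `V' = e(V)`. -/
def S_TRA : Prop := ∀ (f : ℤ[X]) (A : Type u) (A' : Type w) (M : Type v) [Field A] [Field A']
  [Algebra ℚ A] [Algebra ℚ A'] [Field M] (_ : A ≃ₐ[ℚ] A') (S' : Sec f A' M) (D : ℤ) (B : ℕ),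
  S'.Good D B → ∃ S : Sec f A M, S.Good D B

/-! ## Part E: assembly (helper161) -/

/-- The elements of `𝓞 L` attached to sections form finitely many sets which satisfy the hypotheses of
the sieve. -/
def S_AR : Prop := ∀ (f : ℤ[X]) (L : Type) [Field L] [NumberField L] (θ : L), Setup f L θ →
  3 ≤ f.natDegree → ∀ (A : Type) [Field A] [Algebra ℚ A] [IsAlgClosure ℚ A] (B0 : ℕ), B0 ≠ 0 →
  ∃ (B : ℕ) (C : ℝ) (N : ℕ) (T : Fin N → Set (𝓞 L)), B ≠ 0 ∧ 0 < C ∧
    (∀ k, ∀ l : ℕ, l.Prime → ¬ l ∣ B → Ty1 l (T k) ∧ Ty2 l (T k)) ∧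
    ∀ (D : ℤ) (M : Type v) [Field M] (S : Sec f A M), Squarefree D → S.Good D B0 →
      ∃ k, ∃ α ∈ T k, (∀ l : ℕ, l.Prime → ¬ l ∣ B → ((l : ℤ) ∣ D ↔
          ∃ v : HeightOneSpectrum (𝓞 L), Abv v l ∧ α ∈ v.asIdeal)) ∧
        ∀ σ : L →+* ℂ, ‖σ (α : L)‖ ≤ C * (D.natAbs : ℝ) ^ ((1 : ℝ) / f.natDegree)

open Classical in
/-- JOB FIN. The final count (uses `S_AR` and `EL.S_CORE`, `EL.S_GG`, `EL.S_LOW`).
Proof.  Let `E` be the set of the squarefree `D` for which there is an abstract section, `n = deg f ≥ 6`.  For `D ∈ E`,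
`|D| ≤ X`, choose `k`, `α` as in `S_AR`; `α` lies in the box of size `Y = C X ^ (1/n) + 3`.  `α` determines the
primes `l ∣ D` not dividing `B`, and there are at most `2 ^ (1 + ω(B))` squarefree `D` with these primes.
So `#E(X) ≤ 2 ^ (1 + ω(B)) ∑_k #(T k ∩ box) ≤ C' Y ^ n exp (GN L Y) (log Y) ^ (-1 - c)`
`≤ C'' X exp (Gf f X) (log X) ^ (-1 - c)`, and `S_LOW`. -/
def S_FIN : Prop := ∀ f : ℤ[X], Irreducible (f.map (Int.castRingHom ℚ)) → Even f.natDegree →
  6 ≤ f.natDegree → ∀ (A : Type) [Field A] [Algebra ℚ A] [IsAlgClosure ℚ A] (B0 : ℕ), B0 ≠ 0 →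
  ∃ δ C X0 : ℝ, 0 < δ ∧ ∀ X : ℝ, X0 ≤ X →
    (({D : ℤ | (D.natAbs : ℝ) ≤ X ∧ Squarefree D ∧
      ∃ (M : Type v) (_ : Field M) (S : Sec f A M), S.Good D B0}.ncard : ℕ) : ℝ) ≤
    C * Real.log X ^ (-δ) *
      (({D : ℤ | (D.natAbs : ℝ) ≤ X ∧ Squarefree D ∧ ELS f D}.ncard : ℕ) : ℝ)

end Pool.Agent.Q161.SX
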