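import Pool.Agent.Q161.SX.Ar3
import Pool.Agent.Q161.SX.Main
import Pool.Agent.Q68.SX.Res
import Pool.Agent.Q150.SX.Plc
import Pool.Agent.Q150.SX.Kum
import Pool.Agent.Q150.SX.Tfn
import Pool.Agent.Q150.SX.Gam
import Pool.Agent.Q38.SX.PRM
import Pool.Agent.Q38.SX.EVN
import Pool.Agent.Q38.SX.CLU
import Pool.Agent.Q38.SX.SEL
import Pool.Agent.Q162.SX.DST
import Pool.Agent.Q162.SX.NRM
import Pool.Agent.Q16.SX.TRA
import Pool.Agent.Q251.SX.Fin
import Pool.Agent.Q91.EL.Core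
import Pool.Agent.Q91.EL.Sums
import Pool.Agent.Q91.EL.Small
import Pool.Agent.Q91.EL.Cntl
import Pool.Agent.Q247.EL.SIEVE
import Pool.Agent.Q247.EL.CNT
import Pool.Agent.Q247.EL.M1
import Pool.Agent.Q154.EL.M2
import Pool.Agent.Q154.EL.CH1
import Pool.Agent.Q52.EL.Solv
import Pool.Agent.Q198.EL.Low
import Pool.Agent.Q51.EL.LSV
import Pool.Agent.Q239.EL.UN
import Pool.Agent.Q239.EL.CL
import Pool.Agent.Q239.EL.ROOT

/-! # Project SX: all parts together, except the local theorem for sections -/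

set_option autoImplicit false

namespace Pool.Agent.Q161.SX

open Pool.Agent.Q51.EL

universe u v w

theorem t_prm : S_PRM := Pool.Agent.Q38.SX.prm Pool.Agent.Q150.SX.cnj

theorem t_ar : S_AR.{v} :=
  ar Pool.Agent.Q150.SX.plc t_prm (Pool.Agent.Q38.SX.evn t_prm) Pool.Agent.Q162.SX.dst
    Pool.Agent.Q162.SX.nrm (Pool.Agent.Q38.SX.clu Pool.Agent.Q239.EL.un)
    (Pool.Agent.Q38.SX.sel Pool.Agent.Q239.EL.cl Pool.Agent.Q239.EL.un) Pool.Agent.Q150.SX.kum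
    Pool.Agent.Q150.SX.tfn Pool.Agent.Q150.SX.lam (ty2 (Pool.Agent.Q68.SX.res Pool.Agent.Q162.SX.dst))
    (Pool.Agent.Q239.EL.root Pool.Agent.Q91.EL.ram)

theorem t_core : S_CORE :=
  Pool.Agent.Q91.EL.core (Pool.Agent.Q247.EL.sieve Pool.Agent.Q51.EL.lsv) Pool.Agent.Q91.EL.sums
    Pool.Agent.Q247.EL.cnt Pool.Agent.Q91.EL.ram Pool.Agent.Q247.EL.m1
    (Pool.Agent.Q154.EL.m2 Pool.Agent.Q247.EL.m1 Pool.Agent.Q91.EL.ram)

theorem t_low : S_LOW :=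
  Pool.Agent.Q198.EL.low Q52.EL.solv Pool.Agent.Q154.EL.ch1
    (Pool.Agent.Q91.EL.cntl Pool.Agent.Q91.EL.sums)

theorem t_fin : S_FIN.{v} := Pool.Agent.Q251.SX.fin_count t_ar t_core Pool.Agent.Q91.EL.gg t_low

end Pool.Agent.Q161.SX
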