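import Pool.Agent.Q161.SX.Ty2

/-! # Project SX: parities and Kummer classes -/

set_option autoImplicit false

namespace Pool.Agent.Q161.SX

open Polynomial NumberField IsDedekindDomain
open Pool.Agent.W623.SecC (IsU isU_one)
open Pool.Agent.Q51.EL
open Pool.Agent.W620.SC (root_mem)

universe u v w

section spl

variable {f : ℤ[X]} {A : Type u} [Field A] [Algebra ℚ A]

theorem rt_mem (i : Rt f A) : i.1 ∈ spl f A :=
  IntermediateField.subset_adjoin ℚ _ i.2

theorem rt_finite (hf : f ≠ 0) : {e : A | aeval e f = 0}.Finite := by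
  classical
  have hchar : CharZero A := algebraRat.charZero A
  have h0 : f.map (algebraMap ℤ A) ≠ 0 := by
    rw [Ne, Polynomial.map_eq_zero_iff (by exact (algebraMap ℤ A).injective_int)]
    exact hf
  refine ((f.map (algebraMap ℤ A)).roots.toFinset.finite_toSet).subset ?_
  intro e he
  rw [Finset.mem_coe, Multiset.mem_toFinset, mem_roots h0, IsRoot.def, eval_map]
  exact he

theorem rt_fin (hf : f ≠ 0) : Finite (Rt f A) := (rt_finite (A := A) hf).to_subtype

theorem spl_fd (hf : f ≠ 0) [Algebra.IsAlgebraic ℚ A] : FiniteDimensional ℚ (spl f A) := by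
  have h1 : Finite {e : A | aeval e f = 0} := (rt_finite (A := A) hf).to_subtype
  exact IntermediateField.finiteDimensional_adjoin fun x _ => Algebra.IsIntegral.isIntegral x

theorem spl_conj (σ : A ≃ₐ[ℚ] A) {z : A} (hz : z ∈ spl f A) : σ z ∈ spl f A := by
  have h1 : (spl f A).map (σ : A →ₐ[ℚ] A) ≤ spl f A := by
    unfold spl
    rw [IntermediateField.adjoin_map, IntermediateField.adjoin_le_iff]
    rintro _ ⟨e, he, rfl⟩
    apply IntermediateField.subset_adjoin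
    change aeval (σ e) f = 0
    rw [aeval_aut]
    have he' : aeval e f = 0 := he
    rw [he', map_zero]
  exact h1 ⟨z, hz, rfl⟩

theorem fix_conj (σ τ : A ≃ₐ[ℚ] A) (hσ : σ ∈ (spl f A).fixingSubgroup) :
    τ⁻¹ * σ * τ ∈ (spl f A).fixingSubgroup := by
  rw [IntermediateField.mem_fixingSubgroup_iff] at hσ ⊢
  intro z hz
  have h1 := hσ _ (spl_conj τ hz)
  change τ.symm (σ (τ z)) = z
  rw [h1, τ.symm_apply_apply]

theorem emb_mem {L : Type} [Field L] [NumberField L] {θ : L} (hs : Setup f L θ)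
    (j : L →ₐ[ℚ] A) (z : L) : j z ∈ spl f A := by
  have hz : z ∈ Algebra.adjoin ℚ {θ} := by
    rw [Setup.gen hs]
    trivial
  induction hz using Algebra.adjoin_induction with
  | mem x hx =>
    rw [Set.mem_singleton_iff] at hx
    subst hx
    exact rt_mem (⟨j x, Setup.root_hom hs j⟩ : Rt f A)
  | algebraMap q =>
    rw [AlgHom.commutes]
    exact (spl f A).algebraMap_mem q
  | add a b _ _ ha hb =>
    rw [map_add]
    exact add_mem ha hb
  | mul a b _ _ ha hb =>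
    rw [map_mul]
    exact mul_mem ha hb

end spl

section kc

variable {f : ℤ[X]} {A : Type u} {M : Type v} [Field A] [Algebra ℚ A] [Field M] (S : Sec f A M)

theorem Sec.fix_mul {K : IntermediateField ℚ A} {a b : M} (ha : S.Fix K a) (hb : S.Fix K b) :
    S.Fix K (a * b) := fun σ hσ => by rw [map_mul, ha σ hσ, hb σ hσ]

theorem Sec.fix_inv {K : IntermediateField ℚ A} {a : M} (ha : S.Fix K a) :
    S.Fix K a⁻¹ := fun σ hσ => by rw [map_inv₀, ha σ hσ]

theorem Sec.fix_ι {K : IntermediateField ℚ A} {a : A} (ha : a ∈ K) : S.Fix K (S.ι a) := by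
  intro σ hσ
  rw [S.hι, (IntermediateField.mem_fixingSubgroup_iff _ _).1 hσ a ha]

theorem Sec.fix_conj {β : M} (hβ : S.Fix (spl f A) β) (τ : A ≃ₐ[ℚ] A) :
    S.Fix (spl f A) (S.s τ β) := by
  intro σ hσ
  have h1 := hβ _ (SX.fix_conj σ τ hσ)
  have h2 : σ * τ = τ * (τ⁻¹ * σ * τ) := by group
  change (S.s σ * S.s τ) β = _
  rw [← map_mul, h2, map_mul]
  change S.s τ (S.s (τ⁻¹ * σ * τ) β) = _
  rw [h1]

theorem Sec.kc_conj {i j : Rt f A} {a : A} (h : S.Kc i j a) (τ : A ≃ₐ[ℚ] A) :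
    S.Kc (ra τ i) (ra τ j) (τ a) := by
  obtain ⟨h1, h2, β, h3, h4, h5⟩ := h
  refine ⟨spl_conj τ h1, (_root_.map_ne_zero τ).2 h2, S.s τ β, (_root_.map_ne_zero _).2 h3, S.fix_conj h4 τ, ?_⟩
  have h6 := congrArg (S.s τ) h5
  rw [map_mul, map_pow, map_div₀, map_sub, map_sub, S.hι, S.hι, S.hι, S.hx] at h6
  exact h6

theorem Sec.kc_inv {i j : Rt f A} {a : A} (h : S.Kc i j a) : S.Kc j i a⁻¹ := by
  obtain ⟨h1, h2, β, h3, h4, h5⟩ := h
  refine ⟨inv_mem h1, inv_ne_zero h2, β⁻¹, inv_ne_zero h3, S.fix_inv h4, ?_⟩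
  rw [map_inv₀, inv_pow, ← mul_inv, h5, inv_div]

end kc

section pv

variable {A : Type u} [Field A] [CharZero A] {V : ValuationSubring A} {l : ℕ}

theorem PV.mul (hl : l ≠ 0) {a b : A} {e e' : ℤ} (ha : PV V l a e) (hb : PV V l b e') :
    PV V l (a * b) (e + e') := by
  have hl0 : (l : A) ≠ 0 := Nat.cast_ne_zero.2 hl
  obtain ⟨m, hm⟩ := ha
  obtain ⟨m', hm'⟩ := hb
  refine ⟨m + m', ?_⟩
  have h1 : a * b / (l : A) ^ (e + e' + 2 * (m + m')) =
      a / (l : A) ^ (e + 2 * m) * (b / (l : A) ^ (e' + 2 * m')) := by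
    rw [div_mul_div_comm, ← zpow_add₀ hl0]
    congr 2
    ring
  rw [h1]
  exact hm.mul hm'

theorem PV.inv (hl : l ≠ 0) {a : A} {e : ℤ} (ha : PV V l a e) : PV V l a⁻¹ (-e) := by
  have hl0 : (l : A) ≠ 0 := Nat.cast_ne_zero.2 hl
  obtain ⟨m, hm⟩ := ha
  refine ⟨-m, ?_⟩
  have h1 : a⁻¹ / (l : A) ^ (-e + 2 * (-m)) = (a / (l : A) ^ (e + 2 * m))⁻¹ := by
    rw [inv_div, show -e + 2 * (-m) = -(e + 2 * m) by ring, zpow_neg]
    field_simp
  rw [h1]
  exact hm.inv

theorem PV.div (hl : l ≠ 0) {a b : A} {e e' : ℤ} (ha : PV V l a e) (hb : PV V l b e') :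
    PV V l (a / b) (e - e') := by
  rw [div_eq_mul_inv, sub_eq_add_neg]
  exact PV.mul hl ha (PV.inv hl hb)

theorem PV.congr {a : A} {e e' : ℤ} (ha : PV V l a e) (h : Even (e - e')) : PV V l a e' := by
  obtain ⟨m, hm⟩ := ha
  obtain ⟨k, hk⟩ := h
  refine ⟨m + k, ?_⟩
  have h1 : e' + 2 * (m + k) = e + 2 * m := by omega
  rw [h1]
  exact hm

theorem PV.unit {a : A} (ha : IsU V a) : PV V l a 0 :=
  ⟨0, by rw [mul_zero, add_zero, zpow_zero, div_one]; exact ha⟩

theorem PV.of_div {a : A} (ha : IsU V (a / l)) : PV V l a 1 :=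
  ⟨0, by rw [mul_zero, add_zero, zpow_one]; exact ha⟩

end pv

end Pool.Agent.Q161.SX
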