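import Pool.Agent.Q161.SX.Pre

/-! # Project SX: the element of `𝓞 L` attached to a section -/

set_option autoImplicit false

namespace Pool.Agent.Q161.SX

open Polynomial NumberField IsDedekindDomain
open Pool.Agent.W623.SecC (IsU isU_one)
open Pool.Agent.Q51.EL
open Pool.Agent.W620.SC (root_mem)

universe u v w

/-- the canonical square roots -/
def Can {f : ℤ[X]} {A : Type u} {M : Type v} [Field A] [Algebra ℚ A] [Field M] (S : Sec f A M)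
    (r : Rt f A) (φ : A ≃ₐ[ℚ] A) : Prop :=
  ∃ γ : Rt f A → M, (∀ i, γ i ≠ 0) ∧ ∀ i j, i ≠ r → j ≠ r →
      (γ i / γ j) ^ 2 = (S.x - S.ι i.1) / (S.x - S.ι j.1) * S.ι ((r.1 - j.1) / (r.1 - i.1)) ∧
      S.s φ (γ i / γ j) = γ (ra φ i) / γ (ra φ j)

section

variable {f : ℤ[X]} {A : Type} {M : Type v} [Field A] [Algebra ℚ A] [Field M]
  {L : Type} [Field L] [NumberField L]

/-- the local data at `l`, `l ∣ D` -/
structure Dta (S : Sec f A M) (J : Rt f A → (L →ₐ[ℚ] A)) (V : ValuationSubring A)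
    (φ : A ≃ₐ[ℚ] A) (l : ℕ) (r : Rt f A) (v0 : HeightOneSpectrum (𝓞 L)) : Prop where
  fix : ra φ r = r
  ev : ∀ i j a, i ≠ r → j ≠ r → S.Kc i j a → PV V l a 0
  od : ∀ i a, i ≠ r → S.Kc i r a → PV V l a 1
  can : Can S r φ
  abv : Abv v0 l
  nrm : Ideal.absNorm v0.asIdeal = l
  mem : ∀ a : 𝓞 L, a ∈ v0.asIdeal ↔ J r (a : L) ∈ V.nonunits

/-- `α` belongs to the section `S` of `C_D` -/
structure Bel (S : Sec f A M) (J : Rt f A → (L →ₐ[ℚ] A)) (P : ℕ → ValuationSubring A)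
    (Φ : ℕ → (A ≃ₐ[ℚ] A)) (D : ℤ) (B : ℕ) (α : 𝓞 L) : Prop where
  even : ∀ l : ℕ, l.Prime → ¬ l ∣ B → ¬ (l : ℤ) ∣ D →
    (∀ i j a, S.Kc i j a → PV (P l) l a 0) ∧
    ∀ v : HeightOneSpectrum (𝓞 L), Abv v l → v.valuation L (α : L) = 1
  odd : ∀ l : ℕ, l.Prime → ¬ l ∣ B → (l : ℤ) ∣ D → ∃ (r : Rt f A) (v0 : HeightOneSpectrum (𝓞 L)),
    Dta S J (P l) (Φ l) l r v0 ∧ v0.valuation L (α : L) = WithZero.exp (-1 : ℤ) ∧
    ∀ v : HeightOneSpectrum (𝓞 L), Abv v l → v ≠ v0 → v.valuation L (α : L) = 1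

theorem abv_uniq {v : HeightOneSpectrum (𝓞 L)} {l n : ℕ} (hl : l.Prime) (h : Abv v l)
    (hn : ((n : ℕ) : 𝓞 L) ∈ v.asIdeal) : l ∣ n := by
  by_contra hc
  have h1 : IsCoprime (l : ℤ) (n : ℤ) := Nat.isCoprime_iff_coprime.2 ((Nat.Prime.coprime_iff_not_dvd hl).2 hc)
  obtain ⟨a, b, hab⟩ := h1
  apply v.isPrime.ne_top
  rw [Ideal.eq_top_iff_one]
  have h2 : (1 : 𝓞 L) = (a : 𝓞 L) * ((l : ℕ) : 𝓞 L) + (b : 𝓞 L) * ((n : ℕ) : 𝓞 L) := by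
    have h3 := congrArg (fun m : ℤ => (m : 𝓞 L)) hab
    push_cast at h3
    exact h3.symm
  rw [h2]
  exact Ideal.add_mem _ (Ideal.mul_mem_left _ _ h) (Ideal.mul_mem_left _ _ hn)

theorem abv_eq {v : HeightOneSpectrum (𝓞 L)} {l l' : ℕ} (hl : l.Prime) (hl' : l'.Prime)
    (h : Abv v l) (h' : Abv v l') : l = l' :=
  (Nat.prime_dvd_prime_iff_eq hl hl').1 (abv_uniq hl h h')

theorem ar1 {θ : L} (hPRM : S_PRM) (hNRM : S_NRM) (hs : Setup f L θ) [IsAlgClosure ℚ A]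
    (P : ℕ → ValuationSubring A) (Φ : ℕ → (A ≃ₐ[ℚ] A))
    (hP : ∀ l : ℕ, l.Prime → (l : A) ∈ (P l).nonunits ∧ Frb (P l) l (Φ l))
    (J : Rt f A → (L →ₐ[ℚ] A)) (hJ : ∀ i, J i θ = i.1) (B0 B1 B : ℕ) (hB0 : B0 ∣ B) (hB1 : B1 ∣ B)
    (C : ℝ) (hC : 0 < C)
    (hCLU : ∀ S : Finset (HeightOneSpectrum (𝓞 L)), (∀ v ∈ S, (B1 : 𝓞 L) ∉ v.asIdeal) →
      ∃ α : 𝓞 L, α ≠ 0 ∧
      (∀ v : HeightOneSpectrum (𝓞 L), (B1 : 𝓞 L) ∉ v.asIdeal →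
        (v ∈ S → v.valuation L (α : L) = WithZero.exp (-1 : ℤ)) ∧
        (v ∉ S → v.valuation L (α : L) = 1)) ∧
      ∀ σ : L →+* ℂ, ‖σ (α : L)‖ ≤
        C * (∏ v ∈ S, ((Ideal.absNorm v.asIdeal : ℕ) : ℝ)) ^ ((1 : ℝ) / Module.finrank ℚ L))
    (D : ℤ) (S : Sec f A M) (hD : Squarefree D) (hS : S.Good D B0) :
    ∃ α : 𝓞 L, α ≠ 0 ∧ Bel S J P Φ D B α ∧
      ∀ σ : L →+* ℂ, ‖σ (α : L)‖ ≤ C * (D.natAbs : ℝ) ^ ((1 : ℝ) / f.natDegree) := by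
  classical
  have hD0 : D ≠ 0 := hD.ne_zero
  have hDn : D.natAbs ≠ 0 := Int.natAbs_ne_zero.2 hD0
  set Pr : Finset ℕ := D.natAbs.primeFactors.filter (fun l => ¬ l ∣ B) with hPr
  have hmem : ∀ l, l ∈ Pr ↔ l.Prime ∧ ¬ l ∣ B ∧ (l : ℤ) ∣ D := by
    intro l
    rw [hPr, Finset.mem_filter, Nat.mem_primeFactors]
    constructor
    · rintro ⟨⟨h1, h2, -⟩, h3⟩
      exact ⟨h1, h3, Int.natCast_dvd.2 h2⟩
    · rintro ⟨h1, h3, h2⟩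
      exact ⟨⟨h1, Int.natCast_dvd.1 h2, hDn⟩, h3⟩
  have hloc : ∀ l : ℕ, l.Prime → ¬ l ∣ B → S.Loc D l (P l) (Φ l) := fun l hl hlB =>
    hS l hl (fun h => hlB (h.trans hB0)) (P l) (hP l hl).1 (Φ l) (hP l hl).2
  have hex : ∀ l : Pr, ∃ v0 : HeightOneSpectrum (𝓞 L), ∃ r : Rt f A,
      Dta S J (P l.1) (Φ l.1) l.1 r v0 := by
    rintro ⟨l, hl⟩
    obtain ⟨hlp, hlB, hlD⟩ := (hmem l).1 hl
    obtain ⟨r, h1, h2, h3, h4⟩ := (hloc l hlp hlB).odd hlD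
    obtain ⟨v0, h5, h6, -⟩ := (hPRM A L l hlp (P l) (hP l hlp).1).1 (J r)
    have hfix : (Φ l) (J r θ) = J r θ := by
      rw [hJ]
      exact congrArg Subtype.val h1
    exact ⟨v0, r, h1, h2, h3, h4, h5,
      (hNRM f L θ hs A l hlp (P l) (Φ l) (hP l hlp).1 (hP l hlp).2 (J r) hfix v0 h6).1, h6⟩
  choose v0 r hv0 using hex
  have hinj : Function.Injective v0 := by
    intro l l' h
    apply Subtype.ext
    have h1 := (hv0 l).abv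
    rw [h] at h1
    exact abv_eq ((hmem _).1 l.2).1 ((hmem _).1 l'.2).1 h1 (hv0 l').abv
  set Sf : Finset (HeightOneSpectrum (𝓞 L)) := Finset.univ.image v0 with hSf
  have hSmem : ∀ v, v ∈ Sf ↔ ∃ l : Pr, v0 l = v := fun v => by
    rw [hSf, Finset.mem_image]
    simp
  have hB1v : ∀ (v : HeightOneSpectrum (𝓞 L)) (l : ℕ), l.Prime → ¬ l ∣ B → Abv v l →
      (B1 : 𝓞 L) ∉ v.asIdeal := fun v l hl hlB hv h => hlB ((abv_uniq hl hv h).trans hB1)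
  obtain ⟨α, hα0, hα, hαC⟩ := hCLU Sf (by
    intro v hv
    obtain ⟨l, rfl⟩ := (hSmem v).1 hv
    obtain ⟨h1, h2, h3⟩ := (hmem _).1 l.2
    exact hB1v _ l.1 h1 h2 (hv0 l).abv)
  refine ⟨α, hα0, ⟨?_, ?_⟩, ?_⟩
  · intro l hl hlB hlD
    refine ⟨(hloc l hl hlB).even hlD, fun v hv => ?_⟩
    refine (hα v (hB1v v l hl hlB hv)).2 ?_
    intro h
    obtain ⟨l', rfl⟩ := (hSmem v).1 h
    obtain ⟨h1, h2, h3⟩ := (hmem _).1 l'.2
    have h4 := abv_eq hl h1 hv (hv0 l').abv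
    rw [h4] at hlD
    exact hlD h3
  · intro l hl hlB hlD
    have hlP : l ∈ Pr := (hmem l).2 ⟨hl, hlB, hlD⟩
    refine ⟨r ⟨l, hlP⟩, v0 ⟨l, hlP⟩, hv0 ⟨l, hlP⟩, ?_, ?_⟩
    · exact (hα _ (hB1v _ l hl hlB (hv0 ⟨l, hlP⟩).abv)).1 ((hSmem _).2 ⟨_, rfl⟩)
    · intro v hv hvv
      refine (hα v (hB1v v l hl hlB hv)).2 ?_
      intro h
      obtain ⟨l', rfl⟩ := (hSmem v).1 h
      obtain ⟨h1, h2, h3⟩ := (hmem _).1 l'.2
      have h4 := abv_eq hl h1 hv (hv0 l').abv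
      apply hvv
      congr 1
      exact Subtype.ext h4.symm
  · intro σ
    refine (hαC σ).trans ?_
    rw [← hs.deg]
    refine mul_le_mul_of_nonneg_left ?_ hC.le
    refine Real.rpow_le_rpow (Finset.prod_nonneg fun v _ => Nat.cast_nonneg _) ?_ (by positivity)
    have h1 : ∏ v ∈ Sf, ((Ideal.absNorm v.asIdeal : ℕ) : ℝ) = ((∏ l ∈ Pr, l : ℕ) : ℝ) := by
      rw [hSf, Finset.prod_image (fun x _ y _ h => hinj h)]
      push_cast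
      rw [← Finset.prod_coe_sort Pr (fun l => (l : ℝ))]
      refine Finset.prod_congr rfl fun l _ => ?_
      rw [(hv0 l).nrm]
    rw [h1]
    have h2 : (∏ l ∈ Pr, l) ∣ D.natAbs := by
      refine (Finset.prod_dvd_prod_of_subset _ _ _ (Finset.filter_subset _ _)).trans ?_
      exact Nat.prod_primeFactors_dvd _
    exact_mod_cast Nat.le_of_dvd (Nat.pos_of_ne_zero hDn) h2

end

end Pool.Agent.Q161.SX
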