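import Pool.Agent.Q161.SX.Ar2

/-! # Project SX: assembly of `S_AR` -/

set_option autoImplicit false

namespace Pool.Agent.Q161.SX

open Polynomial NumberField IsDedekindDomain
open Pool.Agent.W623.SecC (IsU isU_one)
open Pool.Agent.Q51.EL

universe u v w

section

variable {f : ℤ[X]} {A : Type} [Field A] [Algebra ℚ A]
  {L : Type} [Field L] [NumberField L]

/-- the elements of a given type -/
def TS (f : ℤ[X]) (A : Type) [Field A] [Algebra ℚ A] (L : Type) [Field L] [NumberField L]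
    (P : ℕ → ValuationSubring A) (Φ : ℕ → (A ≃ₐ[ℚ] A)) (J : Rt f A → (L →ₐ[ℚ] A)) (B : ℕ)
    (i0 : Rt f A) (p : (Rt f A → A) × ((A ≃ₐ[ℚ] A) → Rt f A → A)) : Set (𝓞 L) :=
  {α | ∃ (D : ℤ) (M : Type v) (_ : Field M) (S : Sec f A M),
    Att S J i0 α p.1 p.2 ∧ Bel S J P Φ D B α}

theorem notMem_of_val {v : HeightOneSpectrum (𝓞 L)} {α : 𝓞 L} (h : v.valuation L (α : L) = 1) :
    α ∉ v.asIdeal := by
  intro h1
  have h2 := (v.valuation_lt_one_iff_mem (K := L) α).2 h1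
  exact h2.ne h

theorem mem_of_val {v : HeightOneSpectrum (𝓞 L)} {α : 𝓞 L}
    (h : v.valuation L (α : L) = WithZero.exp (-1 : ℤ)) : α ∈ v.asIdeal := by
  rw [← v.valuation_lt_one_iff_mem (K := L) α]
  change v.valuation L (α : L) < 1
  rw [h, ← WithZero.exp_zero, WithZero.exp_lt_exp]
  norm_num

variable {θ : L} {P : ℕ → ValuationSubring A} {Φ : ℕ → (A ≃ₐ[ℚ] A)} {J : Rt f A → (L →ₐ[ℚ] A)}
  {B : ℕ} (E : Env f L θ A P Φ J B)

/-- the prime which contains `α` -/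
theorem bel_of_mem {M : Type v} [Field M] {S : Sec f A M} {D : ℤ} {α : 𝓞 L}
    (hα : Bel S J P Φ D B α) {l : ℕ} (hl : l.Prime) (hlB : ¬ l ∣ B) {v : HeightOneSpectrum (𝓞 L)}
    (hv : Abv v l) (hαv : α ∈ v.asIdeal) : ∃ r : Rt f A, Dta S J (P l) (Φ l) l r v ∧
      v.valuation L (α : L) = WithZero.exp (-1 : ℤ) ∧
      ∀ v' : HeightOneSpectrum (𝓞 L), Abv v' l → v' ≠ v → v'.valuation L (α : L) = 1 := by
  by_cases hlD : (l : ℤ) ∣ D
  · obtain ⟨r, v0, h1, h2, h3⟩ := hα.odd l hl hlB hlD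
    by_cases h4 : v = v0
    · subst h4
      exact ⟨r, h1, h2, h3⟩
    · exact absurd hαv (notMem_of_val (h3 v hv h4))
  · exact absurd hαv (notMem_of_val ((hα.even l hl hlB hlD).2 v hv))

include E

theorem ts_ty (hPRM : S_PRM) (hNRM : S_NRM) [IsAlgClosure ℚ A]
    (hTY : ∀ l : ℕ, l.Prime → ¬ l ∣ B → ∀ (V : ValuationSubring A) (φ : A ≃ₐ[ℚ] A),
      (l : A) ∈ V.nonunits → Frb V l φ → ∀ (i0 r : Rt f A) (t : Rt f A → A)
      (lam : (A ≃ₐ[ℚ] A) → Rt f A → A) (M : Type v) (M' : Type v) [Field M] [Field M']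
      (S : Sec f A M) (S' : Sec f A M') (α α' : 𝓞 L), Att S J i0 α t lam → Att S' J i0 α' t lam →
      ra φ r = r → (∀ i, i ≠ r → IsU V (J i (α : L)) ∧ IsU V (J i (α' : L))) →
      Can S r φ → Can S' r φ →
      ∃ c : ℤ, ¬ (l : ℤ) ∣ c ∧ ∀ i, i ≠ r → ∃ g : 𝓞 L,
        J i (((c : 𝓞 L) * α * α' - g ^ 2 : 𝓞 L) : L) ∈ V.nonunits)
    (i0 : Rt f A) (p : (Rt f A → A) × ((A ≃ₐ[ℚ] A) → Rt f A → A)) {l : ℕ} (hl : l.Prime)
    (hlB : ¬ l ∣ B) :
    Ty1 l (TS.{v} f A L P Φ J B i0 p) ∧ Ty2 l (TS.{v} f A L P Φ J B i0 p) := by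
  constructor
  · rintro β ⟨D, M, _, S, hA, hB⟩
    by_cases hlD : (l : ℤ) ∣ D
    · obtain ⟨r, v0, h1, h2, h3⟩ := hB.odd l hl hlB hlD
      exact Or.inr ⟨v0, h1.abv, h1.nrm, mem_of_val h2, fun v hv hvv => notMem_of_val (h3 v hv hvv)⟩
    · exact Or.inl fun v hv => notMem_of_val ((hB.even l hl hlB hlD).2 v hv)
  · rintro β ⟨D, M, _, S, hA, hB⟩ β' ⟨D', M', _, S', hA', hB'⟩ v0 hv0 hβ hβ'
    obtain ⟨r, h1, h2, h3⟩ := bel_of_mem hB hl hlB hv0 hβ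
    obtain ⟨r', h1', h2', h3'⟩ := bel_of_mem hB' hl hlB hv0 hβ'
    have hrr : r' = r := E.unq hNRM hl hlB h1 h1'.mem
    subst hrr
    have h4 := (E.val hPRM hNRM hA.a0 hB hl hlB h1 h2 h3).1
    have h4' := (E.val hPRM hNRM hA'.a0 hB' hl hlB h1' h2' h3').1
    obtain ⟨c, hc, hc2⟩ := hTY l hl hlB (P l) (Φ l) (E.hP l hl).1 (E.hP l hl).2 i0 r' p.1 p.2 M M'
      S S' β β' hA hA' h1.fix (fun i hi => ⟨h4 i hi, h4' i hi⟩) h1.can h1'.can
    refine ⟨c, hc, fun v hv hvv => ?_⟩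
    obtain ⟨j, hj⟩ := (hPRM A L l hl (P l) (E.hP l hl).1).2 v hv
    obtain ⟨i, rfl⟩ := Setup.eq_emb E.hs E.hJ j
    have hir : i ≠ r' := by
      rintro rfl
      apply hvv
      ext a
      rw [hj, h1.mem]
    obtain ⟨g, hg⟩ := hc2 i hir
    exact ⟨g, (hj _).2 hg⟩

end

theorem ar (hPLC : S_PLC) (hPRM : S_PRM) (hEVN : S_EVN) (hDST : S_DST) (hNRM : S_NRM)
    (hCLU : S_CLU) (hSEL : S_SEL) (hKUM : S_KUM.{v}) (hTFN : S_TFN) (hLAM : S_LAM.{v})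
    (hTY2 : S_TY2.{v}) (hROOT : S_ROOT) : S_AR.{v} := by
  classical
  intro f L _ _ θ hs hn A _ _ _ B0 hB0
  have hf0 := Setup.f0 hs
  have hcl : IsAlgClosed A := IsAlgClosure.isAlgClosed ℚ
  have halg : Algebra.IsAlgebraic ℚ A := IsAlgClosure.isAlgebraic
  have hch : CharZero A := algebraRat.charZero A
  -- places
  have hPex : ∀ l : ℕ, ∃ (V : ValuationSubring A) (φ : A ≃ₐ[ℚ] A), l.Prime →
      (l : A) ∈ V.nonunits ∧ Frb V l φ := by
    intro l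
    by_cases hl : l.Prime
    · obtain ⟨V, φ, h⟩ := hPLC A l hl
      exact ⟨V, φ, fun _ => h⟩
    · exact ⟨⊤, 1, fun h => absurd h hl⟩
  choose P Φ hP using hPex
  -- embeddings
  have hJex : ∀ i : Rt f A, ∃ j : L →ₐ[ℚ] A, j θ = i.1 := fun i => Setup.exists_emb hs i
  choose J hJ using hJex
  -- the splitting field
  have hfd : FiniteDimensional ℚ (spl f A) := spl_fd hf0
  have hNF : NumberField (spl f A) := by
    refine { to_charZero := inferInstance, to_finiteDimensional := ?_ }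
    have h1 : (DivisionRing.toRatAlgebra : Algebra ℚ (spl f A)) = (spl f A).algebra' :=
      Subsingleton.elim _ _
    rw [h1]
    exact hfd
  -- a zero
  have hi0 : Nonempty (Rt f A) := by
    let j : L →ₐ[ℚ] A := IsAlgClosed.lift
    exact ⟨⟨j θ, Setup.root_hom hs j⟩⟩
  obtain ⟨i0⟩ := hi0
  -- the bad primes
  obtain ⟨BD, hBD0, hBD⟩ := hDST f (Setup.sep hs)
  obtain ⟨BT, hBT0, hBT⟩ := hTY2 f L θ hs
  obtain ⟨BC, C, hBC0, hC, hBC⟩ := hCLU L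
  obtain ⟨BR, hBR0, -, hBR⟩ := hROOT f L θ hs
  set B := B0 * BD * BT * BC * BR with hB
  have hBne : B ≠ 0 := mul_ne_zero (mul_ne_zero (mul_ne_zero (mul_ne_zero hB0 hBD0) hBT0) hBC0) hBR0
  have d0 : B0 ∣ B := ⟨BD * BT * BC * BR, by rw [hB]; ring⟩
  have dD : BD ∣ B := ⟨B0 * BT * BC * BR, by rw [hB]; ring⟩
  have dT : BT ∣ B := ⟨B0 * BD * BC * BR, by rw [hB]; ring⟩
  have dC : BC ∣ B := ⟨B0 * BD * BT * BR, by rw [hB]; ring⟩
  have dR : BR ∣ B := ⟨B0 * BD * BT * BC, by rw [hB]; ring⟩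
  have E : Env f L θ A P Φ J B :=
    { hs := hs
      hP := hP
      hJ := hJ
      dst := fun l hl hlB => by
        have h := hBD A l hl (fun h => hlB (h.trans dD)) (P l) (hP l hl).1
        exact ⟨h.1, h.2.2⟩
      ram := fun l hl hlB v hv => ((hBR l hl (fun h => hlB (h.trans dR))).1 v hv).2 }
  obtain ⟨T, hT0, hT⟩ := hSEL (spl f A) B hBne
  set T' : Set A := insert (1 : A) ((fun z : spl f A => (z : A)) '' (T : Set (spl f A))) with hT'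
  have hT'fin : T'.Finite := (T.finite_toSet.image _).insert _
  have hT'0 : (0 : A) ∉ T' := by
    intro h
    rcases h with h | ⟨z, hz, hz0⟩
    · exact one_ne_zero h.symm
    · apply hT0
      have : z = 0 := Subtype.ext hz0
      rw [← this]
      exact hz
  have hfin := hTFN f A hf0 i0 T' hT'fin hT'0
  set Ty := {p : (Rt f A → A) × ((A ≃ₐ[ℚ] A) → Rt f A → A) | (∀ i, p.1 i ∈ T') ∧
    (∀ σ i, p.2 σ i ^ 2 * σ (p.1 i) * p.1 (ra σ i0) = p.1 (ra σ i)) ∧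
    ∀ σ τ : A ≃ₐ[ℚ] A, (∀ z ∈ spl f A, σ z = τ z) → p.2 σ = p.2 τ} with hTy
  have hfin' : Finite Ty := hfin.to_subtype
  obtain ⟨N, ⟨e⟩⟩ := Finite.exists_equiv_fin Ty
  refine ⟨B, C, N, fun k => TS.{v} f A L P Φ J B i0 (e.symm k).1, hBne, hC, ?_, ?_⟩
  · intro k l hl hlB
    refine ts_ty E hPRM hNRM ?_ i0 (e.symm k).1 hl hlB
    intro l hl hlB V φ hV hφ i0 r t lam M M' _ _ S S' α α' h1 h2 h3 h4 h5 h6
    exact hBT A l hl (fun h => hlB (h.trans dT)) V φ hV hφ J hJ i0 r t lam M M' S S' α α' h1 h2 h3 h4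
      h5 h6
  · intro D M _ S hD hS
    obtain ⟨α, hα0, hα, hαC⟩ := ar1 hPRM hNRM hs P Φ hP J hJ B0 BC B d0 dC C hC hBC D S hD hS
    obtain ⟨t, lam, ht, hatt⟩ := E.att hPRM hNRM hEVN hKUM T hT0 hT i0 hα0 hα
    have hlam := hLAM f L θ hs A M S J hJ i0 α t lam hatt
    have hmem : (t, lam) ∈ Ty := ⟨ht, hlam.1, hlam.2⟩
    refine ⟨e ⟨(t, lam), hmem⟩, α, ?_, ?_, hαC⟩
    · refine ⟨D, M, inferInstance, S, ?_, hα⟩
      rw [Equiv.symm_apply_apply]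
      exact hatt
    · intro l hl hlB
      constructor
      · intro hlD
        obtain ⟨r, v0, h1, h2, h3⟩ := hα.odd l hl hlB hlD
        exact ⟨v0, h1.abv, mem_of_val h2⟩
      · rintro ⟨v, hv, hαv⟩
        by_contra hlD
        exact notMem_of_val ((hα.even l hl hlB hlD).2 v hv) hαv

end Pool.Agent.Q161.SX
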