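import Pool.Agent.Q51.EL.Def
import Pool.Agent.W623.SecC.Defs

/-!
# Project SX (helper161): sections of the everywhere locally soluble twists: definitions

`f` is a polynomial with integral coefficients, `A` an algebraic closure of `ℚ`, and `C_D` the curve
`D y² = f(x)`.  A section of the fundamental group of the projective curve `C_D`, or of an open
subcurve, is described by the action `s` of `Gal(A/ℚ)` on the field `M` of the maximal unramified
extension; here only the properties of `s` and `M` which are needed are kept.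
-/

set_option autoImplicit false

namespace Pool.Agent.Q161.SX

open Polynomial NumberField IsDedekindDomain
open Pool.Agent.W623.SecC (IsU)
open Pool.Agent.Q51.EL (Setup Abv Par)

universe u v w

section roots

variable (f : ℤ[X]) (A : Type u) [Field A]

/-- the zeros of `f` in `A` -/
def Rt : Type u := {e : A // aeval e f = 0}

variable [Algebra ℚ A]

/-- the splitting field of `f` in `A` -/
def spl : IntermediateField ℚ A := IntermediateField.adjoin ℚ {e : A | aeval e f = 0}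

variable {f A}

theorem aeval_aut (σ : A ≃ₐ[ℚ] A) (e : A) : aeval (σ e) f = σ (aeval e f) := by
  rw [aeval_def, aeval_def]
  change _ = (σ : A →+* A) _
  rw [hom_eval₂]
  congr 1
  exact RingHom.ext_int _ _

/-- the action of `Gal(A/ℚ)` on the zeros of `f` -/
noncomputable def ra (σ : A ≃ₐ[ℚ] A) : Equiv.Perm (Rt f A) where
  toFun i := ⟨σ i.1, by rw [aeval_aut, i.2, map_zero]⟩
  invFun i := ⟨σ.symm i.1, by rw [aeval_aut, i.2, map_zero]⟩
  left_inv i := Subtype.ext (σ.symm_apply_apply i.1)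
  right_inv i := Subtype.ext (σ.apply_symm_apply i.1)

@[simp] theorem ra_val (σ : A ≃ₐ[ℚ] A) (i : Rt f A) : (ra σ i).1 = σ i.1 := rfl

theorem ra_mul (σ τ : A ≃ₐ[ℚ] A) (i : Rt f A) : ra (σ * τ) i = ra σ (ra τ i) := rfl

end roots

/-- a section, abstractly: an action `s` of `Gal(A/ℚ)` on a field `M ⊇ A` which extends the action on
`A`, an element `x` of `M` fixed by `s` and not in `A`; the ratios `(x - e) / (x - e')`, for the zeros
`e, e'` of `f`, are squares in `M` -/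
structure Sec (f : ℤ[X]) (A : Type u) (M : Type v) [Field A] [Algebra ℚ A] [Field M] where
  s : (A ≃ₐ[ℚ] A) →* RingAut M
  ι : A →+* M
  hι : ∀ σ a, s σ (ι a) = ι (σ a)
  cont : ∀ z : M, ∃ E : IntermediateField ℚ A, FiniteDimensional ℚ E ∧
    ∀ σ ∈ E.fixingSubgroup, s σ z = z
  x : M
  hx : ∀ σ, s σ x = x
  htr : ∀ a, ι a ≠ x
  hsq : ∀ e e' : A, aeval e f = 0 → aeval e' f = 0 → ∃ α : M, α ^ 2 = (x - ι e) / (x - ι e')

section defs

variable {f : ℤ[X]} {A : Type u} {M : Type v} [Field A] [Algebra ℚ A] [Field M]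

/-- `β` is fixed by `s(σ)` for all `σ` that are trivial on `K` -/
def Sec.Fix (S : Sec f A M) (K : IntermediateField ℚ A) (β : M) : Prop :=
  ∀ σ ∈ K.fixingSubgroup, S.s σ β = β

/-- `a` is a Kummer class of `(x - i) / (x - j)` over the splitting field -/
def Sec.Kc (S : Sec f A M) (i j : Rt f A) (a : A) : Prop :=
  a ∈ spl f A ∧ a ≠ 0 ∧ ∃ β : M, β ≠ 0 ∧ S.Fix (spl f A) β ∧
    S.ι a * β ^ 2 = (S.x - S.ι i.1) / (S.x - S.ι j.1)

/-- `φ` is a Frobenius element at the valuation ring `V` above `l` -/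
def Frb (V : ValuationSubring A) (l : ℕ) (φ : A ≃ₐ[ℚ] A) : Prop :=
  (∀ z, φ z ∈ V ↔ z ∈ V) ∧ ∀ z ∈ V, φ z - z ^ l ∈ V.nonunits

/-- the value of `a` at `V` is `l ^ (e + 2 m)` for some `m` -/
def PV (V : ValuationSubring A) (l : ℕ) (a : A) (e : ℤ) : Prop :=
  ∃ m : ℤ, IsU V (a / (l : A) ^ (e + 2 * m))

/-- the local properties of a section of `C_D` at the prime `l`, with respect to a valuation ring `V`
above `l` and a Frobenius element `φ` at `V` -/
structure Sec.Loc (S : Sec f A M) (D : ℤ) (l : ℕ) (V : ValuationSubring A) (φ : A ≃ₐ[ℚ] A) :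
    Prop where
  even : ¬ (l : ℤ) ∣ D → ∀ i j a, S.Kc i j a → PV V l a 0
  odd : (l : ℤ) ∣ D → ∃ r : Rt f A, ra φ r = r ∧
    (∀ i j a, i ≠ r → j ≠ r → S.Kc i j a → PV V l a 0) ∧
    (∀ i a, i ≠ r → S.Kc i r a → PV V l a 1) ∧
    ∃ γ : Rt f A → M, (∀ i, γ i ≠ 0) ∧ ∀ i j, i ≠ r → j ≠ r →
      (γ i / γ j) ^ 2 = (S.x - S.ι i.1) / (S.x - S.ι j.1) * S.ι ((r.1 - j.1) / (r.1 - i.1)) ∧
      S.s φ (γ i / γ j) = γ (ra φ i) / γ (ra φ j)

/-- the local properties at all primes not dividing `B` -/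
def Sec.Good (S : Sec f A M) (D : ℤ) (B : ℕ) : Prop :=
  ∀ l : ℕ, l.Prime → ¬ l ∣ B → ∀ V : ValuationSubring A, (l : A) ∈ V.nonunits →
    ∀ φ : A ≃ₐ[ℚ] A, Frb V l φ → S.Loc D l V φ

end defs

section att

variable {f : ℤ[X]} {A : Type} {M : Type v} [Field A] [Algebra ℚ A] [Field M]
  {L : Type} [Field L] [NumberField L]

/-- the element `α` of `𝓞 L` and the type `(t, lam)` belong to the section `S`; `J i` is the embedding
of `L` in `A` with `θ ↦ i` -/
structure Att (S : Sec f A M) (J : Rt f A → (L →ₐ[ℚ] A)) (i0 : Rt f A) (α : 𝓞 L) (t : Rt f A → A)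
    (lam : (A ≃ₐ[ℚ] A) → Rt f A → A) : Prop where
  a0 : α ≠ 0
  t0 : ∀ i, t i ≠ 0
  ts : ∀ i, t i ∈ spl f A
  ex : ∃ β : Rt f A → M, (∀ i, β i ≠ 0) ∧ (∀ i, S.Fix (spl f A) (β i)) ∧
    (∀ i, S.ι (t i * (J i (α : L) / J i0 (α : L))) * β i ^ 2 =
      (S.x - S.ι i.1) / (S.x - S.ι i0.1)) ∧
    ∀ σ i, S.s σ (β i) * β (ra σ i0) = S.ι (lam σ i) * β (ra σ i)

end att

end Pool.Agent.Q161.SX
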