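import Pool.Agent.Q161.SX.Emb
import Pool.Agent.W620.SC.Norm
import Pool.Agent.W623.SecC.Kum

/-! # Project SX, job TY2: two sections of the same type -/

set_option autoImplicit false

namespace Pool.Agent.Q161.SX

open Polynomial NumberField IsDedekindDomain
open Pool.Agent.W623.SecC (IsU isU_one)
open Pool.Agent.Q51.EL
open Pool.Agent.W620.SC (root_mem)

universe u v w

section loc

variable {A : Type} [Field A] [Algebra ℚ A] {V : ValuationSubring A}

theorem nu_mul {a b : A} (ha : a ∈ V) (hb : b ∈ V.nonunits) : a * b ∈ V.nonunits := by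
  rw [V.mem_nonunits_iff, map_mul]
  exact lt_of_le_of_lt (mul_le_of_le_one_left' ((V.valuation_le_one_iff _).2 ha))
    ((V.mem_nonunits_iff).1 hb)

theorem nu_add {a b : A} (ha : a ∈ V.nonunits) (hb : b ∈ V.nonunits) : a + b ∈ V.nonunits := by
  rw [V.mem_nonunits_iff] at *
  exact lt_of_le_of_lt (V.valuation.map_add a b) (max_lt ha hb)

theorem nu_neg {a : A} (ha : a ∈ V.nonunits) : -a ∈ V.nonunits := by
  rw [V.mem_nonunits_iff] at *
  rwa [Valuation.map_neg]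

theorem int_mem (V : ValuationSubring A) (n : ℤ) : (n : A) ∈ V := intCast_mem V n

/-- the multiples of `l` are exactly the integers which are nonunits -/
theorem int_nu {l : ℕ} (hl : l.Prime) (hV : (l : A) ∈ V.nonunits) (n : ℤ) :
    (n : A) ∈ V.nonunits ↔ (l : ℤ) ∣ n := by
  constructor
  · intro h
    by_contra hn
    have hcop : IsCoprime (l : ℤ) n := (Prime.coprime_iff_not_dvd (Nat.prime_iff_prime_int.mp hl)).2 hn
    obtain ⟨a, c, hac⟩ := hcop
    have h1 : (1 : A) = (a : A) * (l : A) + (c : A) * (n : A) := by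
      have h3 := congrArg (fun m : ℤ => (m : A)) hac
      push_cast at h3
      exact h3.symm
    have h2 : (1 : A) ∈ V.nonunits := by
      rw [h1]
      exact nu_add (nu_mul (int_mem V a) hV) (nu_mul (int_mem V c) h)
    exact isU_one.not_nonunit h2
  · rintro ⟨c, rfl⟩
    push_cast
    rw [mul_comm]
    exact nu_mul (int_mem V c) hV

theorem isU_int {l : ℕ} (hl : l.Prime) (hV : (l : A) ∈ V.nonunits) {n : ℤ} (hn : ¬ (l : ℤ) ∣ n) :
    IsU V (n : A) := by
  have h1 : (n : A) ∉ V.nonunits := fun h => hn ((int_nu hl hV n).1 h)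
  rw [ValuationSubring.mem_nonunits_iff_or, not_or, not_not] at h1
  exact ⟨h1.1, int_mem V n, h1.2⟩

/-- a nonresidue modulo `l` changes sign under Frobenius -/
theorem exists_twist [IsAlgClosed A] {l : ℕ} (hl : l.Prime) (hl2 : l ≠ 2)
    (hV : (l : A) ∈ V.nonunits) (φ : A ≃ₐ[ℚ] A) (hφ : Frb V l φ) :
    ∃ (c : ℤ) (w : A), ¬ (l : ℤ) ∣ c ∧ w ^ 2 = (c : A) ∧ φ w = -w := by
  have : Fact l.Prime := ⟨hl⟩
  obtain ⟨a, ha⟩ := FiniteField.exists_nonsquare (F := ZMod l) (by rw [ZMod.ringChar_zmod_n]; exact hl2)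
  obtain ⟨c, rfl⟩ := ZMod.intCast_surjective a
  have hc0 : (c : ZMod l) ≠ 0 := fun h => ha (by rw [h]; exact ⟨0, by ring⟩)
  have hlc : ¬ (l : ℤ) ∣ c := fun h => hc0 ((ZMod.intCast_zmod_eq_zero_iff_dvd c l).2 h)
  obtain ⟨w, hw⟩ := IsAlgClosed.exists_pow_nat_eq (c : A) (n := 2) (by norm_num)
  refine ⟨c, w, hlc, hw, ?_⟩
  have hcU := isU_int hl hV hlc
  have hwU : IsU V w := IsU.of_pow (n := 2) (by norm_num) (by rw [hw]; exact hcU)
  have h1 : (φ w) ^ 2 = w ^ 2 := by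
    rw [← map_pow, hw, map_intCast]
  rcases sq_eq_sq_iff_eq_or_eq_neg.1 h1 with h2 | h2
  · exfalso
    -- `c ^ ((l - 1) / 2) = -1`
    have h3 : (c : ZMod l) ^ (l / 2) = -1 := by
      have h4 := ZMod.euler_criterion l hc0
      rcases ZMod.pow_div_two_eq_neg_one_or_one l hc0 with h5 | h5
      · exact absurd (h4.2 h5) ha
      · exact h5
    have h4 : (l : ℤ) ∣ c ^ (l / 2) + 1 := by
      rw [← ZMod.intCast_zmod_eq_zero_iff_dvd]
      push_cast
      rw [h3]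
      ring
    have h5 : ((c ^ (l / 2) + 1 : ℤ) : A) ∈ V.nonunits := (int_nu hl hV _).2 h4
    have hodd : l = 2 * (l / 2) + 1 := by
      have := hl.eq_two_or_odd
      omega
    have h6 : w ^ l = w * (c : A) ^ (l / 2) := by
      conv_lhs => rw [hodd]
      rw [pow_succ, pow_mul, hw]
      ring
    have h7 := hφ.2 w hwU.2.1
    rw [h2, h6] at h7
    have h8 : w * ((c ^ (l / 2) + 1 : ℤ) : A) ∈ V.nonunits := nu_mul hwU.2.1 h5
    have h9 : (2 : A) * w ∈ V.nonunits := by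
      have h10 : (2 : A) * w = (w - w * (c : A) ^ (l / 2)) + w * ((c ^ (l / 2) + 1 : ℤ) : A) := by
        push_cast
        ring
      rw [h10]
      exact nu_add h7 h8
    have h2U : IsU V (2 : A) := by
      have h11 : ¬ (l : ℤ) ∣ 2 := by
        intro h
        have h12 : l ∣ 2 := by exact_mod_cast h
        exact hl2 ((Nat.prime_dvd_prime_iff_eq hl Nat.prime_two).1 h12)
      have := isU_int hl hV h11
      exact_mod_cast this
    exact (h2U.mul hwU).not_nonunit h9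
  · exact h2

end loc

section pow

variable {f : ℤ[X]} {A : Type} [Field A] [Algebra ℚ A]

theorem ra_pow (φ : A ≃ₐ[ℚ] A) (m : ℕ) (i : Rt f A) : (ra (φ ^ m) i).1 = (φ ^ m) i.1 := rfl

theorem ra_pow_succ (φ : A ≃ₐ[ℚ] A) (m : ℕ) (i : Rt f A) :
    ra (φ ^ (m + 1)) i = ra φ (ra (φ ^ m) i) := by
  rw [pow_succ', ra_mul]

end pow

section rho

variable {f : ℤ[X]} {L : Type} [Field L] [NumberField L] {θ : L} {A : Type} [Field A] [Algebra ℚ A]
  [IsAlgClosed A] {N : Type v} [Field N]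

/-- the constants which relate the square roots `β i` and `γ i` -/
theorem exists_rho (hs : Setup f L θ) (φ : A ≃ₐ[ℚ] A) (J : Rt f A → (L →ₐ[ℚ] A))
    (hJ : ∀ i, J i θ = i.1) (i0 r : Rt f A) (t : Rt f A → A) (lam : Rt f A → A)
    (S : Sec f A N) (α : 𝓞 L) (β γ : Rt f A → N) (hα0 : α ≠ 0) (ht0 : ∀ i, t i ≠ 0)
    (hβ0 : ∀ i, β i ≠ 0) (hγ0 : ∀ i, γ i ≠ 0) (hr : ra φ r = r)
    (hβ : ∀ i, S.ι (t i * (J i (α : L) / J i0 (α : L))) * β i ^ 2 =
        (S.x - S.ι i.1) / (S.x - S.ι i0.1))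
    (hβs : ∀ i, S.s φ (β i) * β (ra φ i0) = S.ι (lam i) * β (ra φ i))
    (hγ : ∀ i j, i ≠ r → j ≠ r →
        (γ i / γ j) ^ 2 = (S.x - S.ι i.1) / (S.x - S.ι j.1) * S.ι ((r.1 - j.1) / (r.1 - i.1)) ∧
        S.s φ (γ i / γ j) = γ (ra φ i) / γ (ra φ j)) :
    ∃ ρ : Rt f A → Rt f A → A,
      (∀ i j, i ≠ r → j ≠ r → ρ i j ≠ 0 ∧ ρ i j ^ 2 = (r.1 - i.1) / (r.1 - j.1) *
        (t j * J j (α : L) / (t i * J i (α : L)))) ∧
      (∀ i j, i ≠ r → j ≠ r → φ (ρ i j) = lam i / lam j * ρ (ra φ i) (ra φ j)) ∧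
      ∀ i j k, i ≠ r → j ≠ r → k ≠ r → ρ i j * ρ j k = ρ i k := by
  classical
  have hx : ∀ a : A, S.x - S.ι a ≠ 0 := fun a h => S.htr a (sub_eq_zero.1 h).symm
  have hαL : (α : L) ≠ 0 := fun h => hα0 (RingOfIntegers.coe_eq_zero_iff.1 h)
  have hJα : ∀ i, J i (α : L) ≠ 0 := fun i => (_root_.map_ne_zero (J i)).2 hαL
  have hne : ∀ {i j : Rt f A}, i ≠ j → i.1 - j.1 ≠ 0 := fun h h' => h (Subtype.ext (sub_eq_zero.1 h'))
  have hι : ∀ {a : A}, a ≠ 0 → S.ι a ≠ 0 := fun h => (_root_.map_ne_zero S.ι).2 h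
  have hra : ∀ {i : Rt f A}, i ≠ r → ra φ i ≠ r := by
    intro i hi h
    apply hi
    apply (ra φ).injective
    rw [h, hr]
  have hsq : ∀ i j, i ≠ r → j ≠ r → ((β i / β j) / (γ i / γ j)) ^ 2 =
      S.ι ((r.1 - i.1) / (r.1 - j.1) * (t j * J j (α : L) / (t i * J i (α : L)))) := by
    intro i j hi hj
    have h1 := hβ i
    have h2 := hβ j
    have h3 := (hγ i j hi hj).1
    have hb : (β i / β j) ^ 2 = (S.x - S.ι i.1) / (S.x - S.ι j.1) *
        (S.ι (t j * J j (α : L)) / S.ι (t i * J i (α : L))) := by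
      have e1 : S.ι (t i * (J i (α : L) / J i0 (α : L))) =
          S.ι (t i * J i (α : L)) / S.ι (J i0 (α : L)) := by
        rw [← map_div₀, mul_div_assoc]
      have e2 : S.ι (t j * (J j (α : L) / J i0 (α : L))) =
          S.ι (t j * J j (α : L)) / S.ι (J i0 (α : L)) := by
        rw [← map_div₀, mul_div_assoc]
      rw [e1] at h1
      rw [e2] at h2
      have f1 := hι (mul_ne_zero (ht0 i) (hJα i))
      have f2 := hι (mul_ne_zero (ht0 j) (hJα j))
      have f3 := hι (hJα i0)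
      have f4 := hβ0 j
      have f5 := hx i.1
      have f6 := hx j.1
      have f7 := hx i0.1
      rw [div_pow, div_eq_iff (pow_ne_zero 2 f4)]
      have g1 : β i ^ 2 = (S.x - S.ι i.1) / (S.x - S.ι i0.1) * S.ι (J i0 (α : L)) /
          S.ι (t i * J i (α : L)) := by
        rw [← h1]
        field_simp
      have g2 : β j ^ 2 = (S.x - S.ι j.1) / (S.x - S.ι i0.1) * S.ι (J i0 (α : L)) /
          S.ι (t j * J j (α : L)) := by
        rw [← h2]
        field_simp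
      rw [g1, g2]
      field_simp
    have e3 : S.ι ((r.1 - i.1) / (r.1 - j.1) * (t j * J j (α : L) / (t i * J i (α : L)))) =
        S.ι (r.1 - i.1) / S.ι (r.1 - j.1) * (S.ι (t j * J j (α : L)) / S.ι (t i * J i (α : L))) := by
      rw [map_mul, map_div₀, map_div₀]
    have e4 : S.ι ((r.1 - j.1) / (r.1 - i.1)) = S.ι (r.1 - j.1) / S.ι (r.1 - i.1) := map_div₀ _ _ _
    rw [div_pow, hb, h3, e3, e4]
    have f1 := hι (mul_ne_zero (ht0 i) (hJα i))
    have f2 := hι (mul_ne_zero (ht0 j) (hJα j))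
    have f5 := hx i.1
    have f6 := hx j.1
    have f8 := hι (hne (Ne.symm hi))
    have f9 := hι (hne (Ne.symm hj))
    field_simp
  have hex : ∀ i j, i ≠ r → j ≠ r → ∃ ρ : A, S.ι ρ = (β i / β j) / (γ i / γ j) :=
    fun i j hi hj => root_mem S.ι (n := 2) (by norm_num) (hsq i j hi hj)
  choose! ρ hρ using hex
  have hlam : ∀ i, lam i ≠ 0 := by
    intro i h
    have h1 := hβs i
    rw [h, map_zero, zero_mul] at h1
    exact mul_ne_zero ((_root_.map_ne_zero _).2 (hβ0 i)) (hβ0 _) h1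
  refine ⟨ρ, ?_, ?_, ?_⟩
  · intro i j hi hj
    constructor
    · intro h
      have h1 := hρ i j hi hj
      rw [h, map_zero] at h1
      exact div_ne_zero (div_ne_zero (hβ0 i) (hβ0 j)) (div_ne_zero (hγ0 i) (hγ0 j)) h1.symm
    · apply S.ι.injective
      rw [map_pow, hρ i j hi hj, hsq i j hi hj]
  · intro i j hi hj
    apply S.ι.injective
    have h1 := hβs i
    have h2 := hβs j
    have h3 := (hγ i j hi hj).2
    rw [← S.hι, hρ i j hi hj, map_mul, hρ _ _ (hra hi) (hra hj), map_div₀, h3, map_div₀, map_div₀]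
    have g1 : S.s φ (β i) = S.ι (lam i) * β (ra φ i) / β (ra φ i0) := by
      rw [← h1]
      field_simp [hβ0 (ra φ i0)]
    have g2 : S.s φ (β j) = S.ι (lam j) * β (ra φ j) / β (ra φ i0) := by
      rw [← h2]
      field_simp [hβ0 (ra φ i0)]
    rw [g1, g2]
    have f1 := hβ0 (ra φ i0)
    have f2 := hβ0 (ra φ i)
    have f3 := hβ0 (ra φ j)
    have f4 := hι (hlam i)
    have f5 := hι (hlam j)
    have f6 := hγ0 (ra φ i)
    have f7 := hγ0 (ra φ j)
    field_simp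
  · intro i j k hi hj hk
    apply S.ι.injective
    rw [map_mul, hρ i j hi hj, hρ j k hj hk, hρ i k hi hk]
    have f1 := hβ0 i
    have f2 := hβ0 j
    have f3 := hβ0 k
    have f4 := hγ0 i
    have f5 := hγ0 j
    have f6 := hγ0 k
    field_simp

end rho

theorem ty2 (hR : S_RES) : S_TY2.{v} := by
  intro f L _ _ θ hs
  obtain ⟨B1, hB1, hR⟩ := hR f L θ hs
  refine ⟨2 * B1, by positivity, ?_⟩
  intro A _ _ _ l hl hlB V φ hV hφ J hJ i0 r t lam M M' _ _ S S' α α' hA hA' hr hU hγ hγ'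
  have hl2 : l ≠ 2 := fun h => hlB (h ▸ Dvd.intro B1 rfl)
  have hlB1 : ¬ l ∣ B1 := fun h => hlB (h.mul_left 2)
  have hcl : IsAlgClosed A := IsAlgClosure.isAlgClosed ℚ
  obtain ⟨β, hβ0, hβF, hβ, hβs⟩ := hA.ex
  obtain ⟨β', hβ0', hβF', hβ', hβs'⟩ := hA'.ex
  obtain ⟨γ, hγ0, hγ⟩ := hγ
  obtain ⟨γ', hγ0', hγ'⟩ := hγ'
  by_cases hb : ∃ b : Rt f A, b ≠ r
  swap
  · push Not at hb
    refine ⟨1, ?_, fun i hi => absurd (hb i) hi⟩
    intro h
    have h1 : l ∣ 1 := by exact_mod_cast h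
    exact hl.one_lt.ne' (Nat.dvd_one.1 h1)
  obtain ⟨b, hb⟩ := hb
  have hσJ := Setup.conj_emb hs hJ
  have hne : ∀ {i j : Rt f A}, i ≠ j → i.1 - j.1 ≠ 0 := fun h h' => h (Subtype.ext (sub_eq_zero.1 h'))
  have hra : ∀ {i : Rt f A}, i ≠ r → ra φ i ≠ r := by
    intro i hi h
    apply hi
    apply (ra φ).injective
    rw [h, hr]
  have hαL : (α : L) ≠ 0 := fun h => hA.a0 (RingOfIntegers.coe_eq_zero_iff.1 h)
  have hαL' : (α' : L) ≠ 0 := fun h => hA'.a0 (RingOfIntegers.coe_eq_zero_iff.1 h)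
  have hJα : ∀ i, J i (α : L) ≠ 0 := fun i => (_root_.map_ne_zero (J i)).2 hαL
  have hJα' : ∀ i, J i (α' : L) ≠ 0 := fun i => (_root_.map_ne_zero (J i)).2 hαL'
  obtain ⟨ρ, hρ1, hρ2, hρ3⟩ := exists_rho hs φ J hJ i0 r t (lam φ) S α β γ hA.a0 hA.t0 hβ0 hγ0 hr hβ
    (hβs φ) hγ
  obtain ⟨ρ', hρ1', hρ2', hρ3'⟩ := exists_rho hs φ J hJ i0 r t (lam φ) S' α' β' γ' hA'.a0 hA'.t0 hβ0'
    hγ0' hr hβ' (hβs' φ) hγ'
  have hlam : ∀ i, lam φ i ≠ 0 := by
    intro i h
    have h1 := hβs φ i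
    rw [h, map_zero, zero_mul] at h1
    exact mul_ne_zero ((_root_.map_ne_zero _).2 (hβ0 i)) (hβ0 _) h1
  -- the elements `K i k`
  set K : Rt f A → Rt f A → A := fun i k => ρ i k / ρ' i k * (J k (α' : L) / J i (α' : L)) with hK
  have hK2 : ∀ i k, i ≠ r → k ≠ r → K i k ^ 2 =
      (J k (α : L) * J k (α' : L)) / (J i (α : L) * J i (α' : L)) := by
    intro i k hi hk
    have h1 := (hρ1 i k hi hk).2
    have h2 := (hρ1' i k hi hk).2
    simp only [hK]
    rw [mul_pow, div_pow, div_pow, h1, h2]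
    have f1 := hne (Ne.symm hi)
    have f2 := hne (Ne.symm hk)
    have f3 := hA.t0 i
    have f4 := hA.t0 k
    have f5 := hJα i
    have f6 := hJα k
    have f7 := hJα' i
    have f8 := hJα' k
    field_simp
  have hKφ : ∀ i k, i ≠ r → k ≠ r → φ (K i k) = K (ra φ i) (ra φ k) := by
    intro i k hi hk
    simp only [hK]
    rw [map_mul, map_div₀, map_div₀, hρ2 i k hi hk, hρ2' i k hi hk, hσJ, hσJ]
    congr 1
    rw [mul_div_mul_left]
    exact div_ne_zero (hlam i) (hlam k)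
  have hKc : ∀ i j k, i ≠ r → j ≠ r → k ≠ r → K i j * K j k = K i k := by
    intro i j k hi hj hk
    simp only [hK]
    rw [← hρ3 i j k hi hj hk, ← hρ3' i j k hi hj hk]
    have f1 := (hρ1' i j hi hj).1
    have f2 := (hρ1' j k hj hk).1
    have f7 := hJα' i
    have f8 := hJα' j
    field_simp
  -- square roots of the `h i`
  set h : Rt f A → A := fun i => J i (α : L) * J i (α' : L) with hh
  have hhU : ∀ i, i ≠ r → IsU V (h i) := fun i hi => (hU i hi).1.mul (hU i hi).2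
  have hh0 : ∀ i, h i ≠ 0 := fun i => mul_ne_zero (hJα i) (hJα' i)
  have hhφ : ∀ i, φ (h i) = h (ra φ i) := by
    intro i
    simp only [hh]
    rw [map_mul, hσJ, hσJ]
  obtain ⟨ρb, hρb⟩ := IsAlgClosed.exists_pow_nat_eq (h b) (n := 2) (by norm_num)
  set g : Rt f A → A := fun i => ρb * K b i with hg
  have hg2 : ∀ i, i ≠ r → g i ^ 2 = h i := by
    intro i hi
    simp only [hg]
    rw [mul_pow, hρb, hK2 b i hb hi]
    change h b * (h i / h b) = h i
    field_simp [hh0 b]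
  have hφb : (φ ρb) ^ 2 = (ρb * K b (ra φ b)) ^ 2 := by
    rw [← map_pow, hρb, hhφ, mul_pow, hρb, hK2 b _ hb (hra hb)]
    change _ = h b * (h (ra φ b) / h b)
    field_simp [hh0 b]
  obtain ⟨ε, hε, hgφ⟩ : ∃ ε : A, (ε = 1 ∨ ε = -1) ∧ ∀ i, i ≠ r → φ (g i) = ε * g (ra φ i) := by
    rcases sq_eq_sq_iff_eq_or_eq_neg.1 hφb with h1 | h1
    · refine ⟨1, Or.inl rfl, fun i hi => ?_⟩
      simp only [hg]
      rw [map_mul, h1, hKφ b i hb hi, mul_assoc, hKc b _ _ hb (hra hb) (hra hi), one_mul]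
    · refine ⟨-1, Or.inr rfl, fun i hi => ?_⟩
      simp only [hg]
      rw [map_mul, h1, hKφ b i hb hi, neg_mul, mul_assoc, hKc b _ _ hb (hra hb) (hra hi), neg_one_mul]
  -- the twist
  obtain ⟨c, w, hc, hw, hφw⟩ : ∃ (c : ℤ) (w : A), ¬ (l : ℤ) ∣ c ∧ w ^ 2 = (c : A) ∧ φ w = ε * w := by
    rcases hε with rfl | rfl
    · refine ⟨1, 1, ?_, by norm_num, by rw [map_one, one_mul]⟩
      intro h
      have h1 : l ∣ 1 := by exact_mod_cast h
      exact hl.one_lt.ne' (Nat.dvd_one.1 h1)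
    · obtain ⟨c, w, h1, h2, h3⟩ := exists_twist hl hl2 hV φ hφ
      exact ⟨c, w, h1, h2, by rw [h3, neg_one_mul]⟩
  have hε2 : ε * ε = 1 := by
    rcases hε with rfl | rfl <;> ring
  set z : Rt f A → A := fun i => w * g i with hz
  have hz2 : ∀ i, i ≠ r → z i ^ 2 = c * h i := by
    intro i hi
    simp only [hz]
    rw [mul_pow, hw, hg2 i hi]
  have hzφ : ∀ i, i ≠ r → φ (z i) = z (ra φ i) := by
    intro i hi
    simp only [hz]
    rw [map_mul, hφw, hgφ i hi]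
    linear_combination (w * g (ra φ i)) * hε2
  have hzpow : ∀ (m : ℕ) (i : Rt f A), i ≠ r → ra (φ ^ m) i ≠ r ∧ (φ ^ m) (z i) = z (ra (φ ^ m) i) := by
    intro m i hi
    induction m with
    | zero => exact ⟨hi, rfl⟩
    | succ m ih =>
      constructor
      · rw [ra_pow_succ]
        exact hra ih.1
      · rw [ra_pow_succ, ← hzφ _ ih.1, ← ih.2, pow_succ']
        rfl
  refine ⟨c, hc, fun i hi => ?_⟩
  have hcU := isU_int hl hV hc
  have hzU : IsU V (z i) := IsU.of_pow (n := 2) (by norm_num) (by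
    rw [hz2 i hi]
    exact hcU.mul (hhU i hi))
  obtain ⟨q, hq⟩ := hR A l hl hlB1 V φ hV hφ (J i) (z i) hzU.2.1 (by
    intro m hm
    rw [(hzpow m i hi).2]
    congr 1
    apply Subtype.ext
    rw [ra_pow]
    rw [hJ] at hm
    exact hm)
  refine ⟨q, ?_⟩
  have e1 : J i (((c : 𝓞 L) * α * α' - q ^ 2 : 𝓞 L) : L) =
      -((J i (q : L) + z i) * (J i (q : L) - z i)) := by
    have e2 : (((c : 𝓞 L) * α * α' - q ^ 2 : 𝓞 L) : L) = (c : L) * α * α' - (q : L) ^ 2 := by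
      push_cast
      rfl
    rw [e2, map_sub, map_mul, map_mul, map_pow, map_intCast]
    have e3 := hz2 i hi
    simp only [hh] at e3
    linear_combination -e3
  rw [e1]
  have hqV : J i (q : L) ∈ V := by
    have h2 : J i (q : L) = (J i (q : L) - z i) + z i := by ring
    rw [h2]
    exact add_mem (V.nonunits_subset hq) hzU.2.1
  exact nu_neg (nu_mul (add_mem hqV hzU.2.1) hq)

end Pool.Agent.Q161.SX
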